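import Mathlib

/-!
Unit disk graphs in strips: definitions.
-/

set_option autoImplicit false

namespace Pool.Agent.NS45

/-- the points lie in a strip of width `w` (between two parallel lines at distance `w`) -/
def InStrip (w : ℝ) {n : ℕ} (p : Fin n → EuclideanSpace ℝ (Fin 2)) : Prop :=
  ∃ a b : ℝ, a ^ 2 + b ^ 2 = 1 ∧ ∀ u v, |a * (p u 0 - p v 0) + b * (p u 1 - p v 1)| ≤ w

/-- the imperfection ratio of the unit disk graph of the points is at most `c`: for every demand
vector `x`, the replicated graph has a fractional colouring of total weight at most `c` times any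
bound `k` for its clique sizes -/
def ImpLE {n : ℕ} (p : Fin n → EuclideanSpace ℝ (Fin 2)) (c : ℝ) : Prop :=
  ∀ (x : Fin n → ℕ) (H : SimpleGraph (Σ v : Fin n, Fin (x v))),
    (∀ a b : (Σ v : Fin n, Fin (x v)),
      H.Adj a b ↔ (a ≠ b ∧ (a.1 = b.1 ∨ dist (p a.1) (p b.1) ≤ 1))) →
    ∀ k : ℕ,
      (∀ s : Finset (Σ v : Fin n, Fin (x v)),
        H.IsClique (s : Set (Σ v : Fin n, Fin (x v))) → s.card ≤ k) →
      ∃ y : Finset (Σ v : Fin n, Fin (x v)) → ℝ,
        (∀ I, 0 ≤ y I) ∧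
        (∀ I, y I ≠ 0 → H.IsIndepSet (I : Set (Σ v : Fin n, Fin (x v)))) ∧
        (∀ w : (Σ v : Fin n, Fin (x v)),
          1 ≤ ∑ I : Finset (Σ v : Fin n, Fin (x v)), if w ∈ I then y I else 0) ∧
        (∑ I : Finset (Σ v : Fin n, Fin (x v)), y I) ≤ c * (k : ℝ)

end Pool.Agent.NS45
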