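import Pool.Agent.NS45.Upper

/-!
Fractional colourings of unit disk graphs in a strip of width at most one.
-/

set_option autoImplicit false

namespace Pool.Agent.NS45

open Finset Pool.Agent.UDR57

variable {V : Type*} [DecidableEq V]

/-- the points of the pattern with a given shift are coloured with `k` colours -/
theorem colour_kp (X Y : V → ℝ) {w r : ℝ} (hr0 : 0 ≤ r) (hw1 : w ≤ 1) (hr : r ^ 2 = 1 - w ^ 2)
    (hY : ∀ v, 0 ≤ Y v ∧ Y v ≤ w) (k : ℕ)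
    (hk : ∀ s : Finset V, (∀ a ∈ s, ∀ b ∈ s, dd X Y a b ≤ 1) → s.card ≤ k) (θ : ℝ)
    (E : Finset V) (hE : ∀ v ∈ E, kp w r θ (X v) (Y v)) :
    ∃ c : V → ℕ, (∀ a ∈ E, c a < k) ∧
      ∀ a ∈ E, ∀ b ∈ E, a ≠ b → c a = c b → ¬ dd X Y a b ≤ 1 := by
  classical
  let R : V → V → Prop := fun a b => X a < X b ∧ 1 < dd X Y a b
  have htr : ∀ a ∈ E, ∀ b ∈ E, ∀ c ∈ E, R a b → R b c → R a c := by
    intro a ha b hb c hc hab hbc
    exact ⟨hab.1.trans hbc.1, kp_trans hr0 hw1 hr (hY a) (hY b) (hY c) (hE a ha) (hE b hb) (hE c hc)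
      hab.1 hbc.1 hab.2 hbc.2⟩
  have hir : ∀ a ∈ E, ¬ R a a := fun a _ h => lt_irrefl _ h.1
  have hanti : ∀ s ⊆ E, (∀ a ∈ s, ∀ b ∈ s, ¬ R a b) → s.card ≤ k := by
    intro s hs hs2
    apply hk
    intro a ha b hb
    by_contra hcon
    push Not at hcon
    rcases lt_trichotomy (X a) (X b) with h | h | h
    · exact hs2 a ha b hb ⟨h, hcon⟩
    · unfold dd at hcon
      rw [h, sub_self] at hcon
      have h1 := hY a
      have h2 := hY b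
      nlinarith [mul_nonneg h1.1 h2.1]
    · exact hs2 b hb a ha ⟨h, by rw [dd_symm]; exact hcon⟩
  obtain ⟨c, hc1, hc2⟩ := dilworth R E.card E k rfl htr hir hanti
  refine ⟨c, hc1, fun a ha b hb hab hcc => ?_⟩
  rw [not_le]
  rcases hc2 a ha b hb hab hcc with h | h
  · exact h.2
  · rw [dd_symm]; exact h.2

/-- the fractional colouring with an arbitrarily small loss -/
theorem strip_eps [Fintype V] (X Y : V → ℝ) {w r : ℝ} (hr0 : 0 ≤ r) (hw1 : w ≤ 1) (hr : r ^ 2 = 1 - w ^ 2)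
    (hY : ∀ v, 0 ≤ Y v ∧ Y v ≤ w) (k : ℕ) (hk0 : 0 < k)
    (hk : ∀ s : Finset V, (∀ a ∈ s, ∀ b ∈ s, dd X Y a b ≤ 1) → s.card ≤ k) (ε : ℝ) (hε : 0 < ε) :
    ∃ y : Finset V → ℝ, (∀ I, 0 ≤ y I) ∧
      (∀ I, y I ≠ 0 → ∀ a ∈ I, ∀ b ∈ I, a ≠ b → ¬ dd X Y a b ≤ 1) ∧
      (∀ u : V, 1 ≤ ∑ I : Finset V, if u ∈ I then y I else 0) ∧
      (∑ I : Finset V, y I) ≤ (1 + 1 / (1 + 2 * r)) * k + ε := by
  classical
  have hk0r : (0 : ℝ) < k := by exact_mod_cast hk0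
  -- the number of shifts
  obtain ⟨n, hn⟩ := exists_nat_gt (2 * k / ε)
  -- `N` shifts
  set q : ℝ := (1 + 2 * r) / (2 + 2 * r) with hq
  have hq0 : 0 < q := by rw [hq]; positivity
  have hq2 : 1 / 2 ≤ q := by
    rw [hq, le_div_iff₀ (by positivity)]; linarith
  have hqi : 1 / q = 1 + 1 / (1 + 2 * r) := by
    rw [hq]; field_simp; ring
  set N : ℕ := 2 * (n + 1) with hN
  have hN0 : 0 < N := by omega
  have hNr : (N : ℝ) = 2 * (n + 1) := by rw [hN]; push_cast; ring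
  set M : ℕ := ⌊(N : ℝ) * q⌋₊ with hM
  have hM1 : (M : ℝ) ≤ N * q := Nat.floor_le (by positivity)
  have hM2 : (N : ℝ) * q < M + 1 := Nat.lt_floor_add_one _
  have hn0 : (0 : ℝ) ≤ n := Nat.cast_nonneg n
  have hMn : (n : ℝ) < M := by
    have : (N : ℝ) * (1 / 2) ≤ N * q := mul_le_mul_of_nonneg_left hq2 (by positivity)
    rw [hNr] at this hM2
    linarith
  have hM0 : 0 < (M : ℝ) := lt_of_le_of_lt hn0 hMn
  have hMp : (M : ℝ) * (2 + 2 * r) ≤ N * (1 + 2 * r) := by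
    have h1 : (M : ℝ) * (2 + 2 * r) ≤ N * q * (2 + 2 * r) :=
      mul_le_mul_of_nonneg_right hM1 (by positivity)
    have h2 : (N : ℝ) * q * (2 + 2 * r) = N * (1 + 2 * r) := by rw [hq]; field_simp
    linarith
  let th : ℕ → ℝ := fun j => (2 + 2 * r) * (j / N)
  let E : ℕ → Finset V := fun j => Finset.univ.filter fun v => kp w r (th j) (X v) (Y v)
  have hcol : ∀ j, ∃ c : V → ℕ, (∀ a ∈ E j, c a < k) ∧
      ∀ a ∈ E j, ∀ b ∈ E j, a ≠ b → c a = c b → ¬ dd X Y a b ≤ 1 := fun j =>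
    colour_kp X Y hr0 hw1 hr hY k hk (th j) (E j) fun v hv => (Finset.mem_filter.1 hv).2
  choose c hc1 hc2 using hcol
  let S : ℕ × ℕ → Finset V := fun p => (E p.1).filter fun v => c p.1 v = p.2
  have hind : ∀ p ∈ range N ×ˢ range k, ∀ a ∈ S p, ∀ b ∈ S p, a ≠ b → ¬ dd X Y a b ≤ 1 := by
    intro p _ a ha b hb hab
    obtain ⟨ha1, ha2⟩ := Finset.mem_filter.1 ha
    obtain ⟨hb1, hb2⟩ := Finset.mem_filter.1 hb
    exact hc2 p.1 a ha1 b hb1 hab (ha2.trans hb2.symm)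
  have hcov : ∀ u : V, (M : ℝ) ≤ (((range N ×ˢ range k).filter fun p => u ∈ S p).card : ℝ) := by
    intro u
    have h1 := count_kp w r (X u) (Y u) hr0 N M hN0 hMp
    have h2 : ((range N).filter fun j : ℕ => kp w r ((2 + 2 * r) * (j / N)) (X u) (Y u)).card ≤
        ((range N ×ˢ range k).filter fun p => u ∈ S p).card := by
      apply Finset.card_le_card_of_injOn (fun j => (j, c j u))
      · intro j hj
        rw [Finset.mem_coe, Finset.mem_filter] at hj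
        have hE : u ∈ E j := Finset.mem_filter.2 ⟨Finset.mem_univ _, hj.2⟩
        rw [Finset.mem_coe, Finset.mem_filter]
        refine ⟨Finset.mem_product.2 ⟨hj.1, Finset.mem_range.2 (hc1 j u hE)⟩, ?_⟩
        exact Finset.mem_filter.2 ⟨hE, rfl⟩
      · intro j _ j' _ h
        exact (Prod.ext_iff.1 h).1
    exact_mod_cast h1.trans h2
  obtain ⟨y, hy1, hy2, hy3, hy4⟩ := of_family (range N ×ˢ range k) S
    (fun I => ∀ a ∈ I, ∀ b ∈ I, a ≠ b → ¬ dd X Y a b ≤ 1) hind (M : ℝ) hM0 hcov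
  refine ⟨y, hy1, hy2, hy3, ?_⟩
  rw [hy4, Finset.card_product, Finset.card_range, Finset.card_range, ← hqi]
  push_cast
  rw [div_le_iff₀ hM0]
  -- `N k ≤ (k / q + ε) M`
  have h1 : (N : ℝ) ≤ 1 / q * (M + 1) := by
    rw [one_div, ← div_eq_inv_mul, le_div_iff₀ hq0]
    exact hM2.le
  have h2 : 1 / q ≤ 2 := by
    rw [div_le_iff₀ hq0]; linarith
  have h3 : 2 * (k : ℝ) ≤ ε * M := by
    have : 2 * (k : ℝ) / ε < M := hn.trans hMn
    rw [div_lt_iff₀ hε] at this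
    linarith
  nlinarith

theorem strip_frac [Fintype V] (X Y : V → ℝ) {w r : ℝ} (hr0 : 0 ≤ r) (hw1 : w ≤ 1) (hr : r ^ 2 = 1 - w ^ 2)
    (hY : ∀ v, 0 ≤ Y v ∧ Y v ≤ w) (k : ℕ) (hk0 : 0 < k)
    (hk : ∀ s : Finset V, (∀ a ∈ s, ∀ b ∈ s, dd X Y a b ≤ 1) → s.card ≤ k) :
    ∃ y : Finset V → ℝ, (∀ I, 0 ≤ y I) ∧
      (∀ I, y I ≠ 0 → ∀ a ∈ I, ∀ b ∈ I, a ≠ b → ¬ dd X Y a b ≤ 1) ∧
      (∀ u : V, 1 ≤ ∑ I : Finset V, if u ∈ I then y I else 0) ∧
      (∑ I : Finset V, y I) ≤ (1 + 1 / (1 + 2 * r)) * k :=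
  frac_closed (fun I => ∀ a ∈ I, ∀ b ∈ I, a ≠ b → ¬ dd X Y a b ≤ 1) _
    fun ε hε => strip_eps X Y hr0 hw1 hr hY k hk0 hk ε hε

end Pool.Agent.NS45
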