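import Mathlib

/-!
The least weight of a fractional colouring is attained.
-/

set_option autoImplicit false

namespace Pool.Agent.NS45

open Filter Topology

theorem frac_closed {V : Type*} [Fintype V] [DecidableEq V] (Ind : Finset V → Prop) (c : ℝ)
    (h : ∀ ε : ℝ, 0 < ε → ∃ y : Finset V → ℝ, (∀ I, 0 ≤ y I) ∧ (∀ I, y I ≠ 0 → Ind I) ∧
      (∀ u : V, 1 ≤ ∑ I : Finset V, if u ∈ I then y I else 0) ∧
      (∑ I : Finset V, y I) ≤ c + ε) :
    ∃ y : Finset V → ℝ, (∀ I, 0 ≤ y I) ∧ (∀ I, y I ≠ 0 → Ind I) ∧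
      (∀ u : V, 1 ≤ ∑ I : Finset V, if u ∈ I then y I else 0) ∧
      (∑ I : Finset V, y I) ≤ c := by
  choose y h0 h1 h2 h3 using fun n : ℕ => h (1 / ((n : ℝ) + 1)) (by positivity)
  have hb : ∀ n, y n ∈ Set.pi Set.univ (fun _ : Finset V => Set.Icc (0 : ℝ) (c + 1)) := by
    intro n I _
    refine ⟨h0 n I, ?_⟩
    have e1 : y n I ≤ ∑ I : Finset V, y n I :=
      Finset.single_le_sum (f := fun I => y n I) (fun J _ => h0 n J) (Finset.mem_univ I)
    have e2 : 1 / ((n : ℝ) + 1) ≤ 1 := by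
      rw [div_le_one (by positivity)]
      have : (0 : ℝ) ≤ n := Nat.cast_nonneg n
      linarith
    linarith [h3 n]
  have hcpt : IsCompact (Set.pi Set.univ (fun _ : Finset V => Set.Icc (0 : ℝ) (c + 1))) :=
    isCompact_univ_pi fun _ => isCompact_Icc
  obtain ⟨y0, -, φ, hφ, hlim⟩ := hcpt.tendsto_subseq hb
  have hpt : ∀ I, Tendsto (fun n => y (φ n) I) atTop (𝓝 (y0 I)) := fun I =>
    (tendsto_pi_nhds.1 hlim) I
  refine ⟨y0, ?_, ?_, ?_, ?_⟩
  · intro I
    exact ge_of_tendsto' (hpt I) fun n => h0 _ I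
  · intro I hI
    by_contra hnot
    apply hI
    have hz : ∀ n, y (φ n) I = 0 := by
      intro n
      by_contra hne
      exact hnot (h1 _ I hne)
    have := hpt I
    simp only [hz] at this
    exact tendsto_nhds_unique this tendsto_const_nhds
  · intro u
    have ht : Tendsto (fun n => ∑ I : Finset V, if u ∈ I then y (φ n) I else 0) atTop
        (𝓝 (∑ I : Finset V, if u ∈ I then y0 I else 0)) := by
      refine tendsto_finsetSum _ fun I _ => ?_
      by_cases hu : u ∈ I
      · simp only [hu, if_true]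
        exact hpt I
      · simp only [hu, if_false]
        exact tendsto_const_nhds
    exact ge_of_tendsto' ht fun n => h2 _ u
  · have ht : Tendsto (fun n => ∑ I : Finset V, y (φ n) I) atTop
        (𝓝 (∑ I : Finset V, y0 I)) := tendsto_finsetSum _ fun I _ => hpt I
    have ht2 : Tendsto (fun n => c + 1 / (((φ n : ℕ) : ℝ) + 1)) atTop (𝓝 (c + 0)) :=
      tendsto_const_nhds.add
        ((tendsto_one_div_add_atTop_nhds_zero_nat (𝕜 := ℝ)).comp hφ.tendsto_atTop)
    have := le_of_tendsto_of_tendsto' ht ht2 fun n => h3 _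
    simpa using this

end Pool.Agent.NS45
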