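import Pool.Agent.NS45.Defs
import Pool.Agent.UDR57.Fam

/-!
A lower bound for the imperfection ratio from the number of points, the largest set of pairwise
close points and the largest set of pairwise far points.
-/

set_option autoImplicit false

namespace Pool.Agent.NS45

open Finset Pool.Agent.UDR57

/-- `n` points, at most `k` of them pairwise close, at most `q` of them pairwise far -/
theorem not_impLE {n k q : ℕ} {c : ℝ} (X Y : Fin n → ℝ)
    (h2 : ∀ s : Finset (Fin n), (∀ a ∈ s, ∀ b ∈ s, dd X Y a b ≤ 1) → s.card ≤ k)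
    (h3 : ∀ s : Finset (Fin n), (∀ a ∈ s, ∀ b ∈ s, a ≠ b → 1 < dd X Y a b) → s.card ≤ q)
    (h4 : (q : ℝ) * c * k < n) :
    ¬ ImpLE (fun v => (!₂[X v, Y v] : EuclideanSpace ℝ (Fin 2))) c := by
  classical
  let p : Fin n → EuclideanSpace ℝ (Fin 2) := fun v => !₂[X v, Y v]
  have hp0 : ∀ v, p v 0 = X v := fun v => rfl
  have hp1 : ∀ v, p v 1 = Y v := fun v => rfl
  intro hI
  let x : Fin n → ℕ := fun _ => 1
  let H : SimpleGraph (Σ v : Fin n, Fin (x v)) :=
    { Adj := fun a b => a ≠ b ∧ (a.1 = b.1 ∨ dist (p a.1) (p b.1) ≤ 1)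
      symm := ⟨fun a b h => ⟨h.1.symm, h.2.elim (fun e => Or.inl e.symm)
        fun e => Or.inr (by rw [dist_comm]; exact e)⟩⟩
      loopless := ⟨fun a h => h.1 rfl⟩ }
  have hinj : Function.Injective (fun a : (Σ v : Fin n, Fin (x v)) => a.1) := by
    rintro ⟨a, i⟩ ⟨b, j⟩ h
    simp only at h
    subst h
    have : i = j := Subsingleton.elim (α := Fin 1) i j
    rw [this]
  have hdist : ∀ a b : Fin n, dist (p a) (p b) ≤ 1 ↔ dd X Y a b ≤ 1 := by
    intro a b
    rw [EuclideanSpace.dist_eq, Real.sqrt_le_one, Fin.sum_univ_two, Real.dist_eq, Real.dist_eq,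
      sq_abs, sq_abs, hp0, hp0, hp1, hp1]
    exact Iff.rfl
  obtain ⟨y, y1, y2, y3, y4⟩ := hI x H (fun a b => Iff.rfl) k (by
    intro s hs
    have e1 : (s.image (fun a => a.1)).card ≤ k := by
      apply h2
      intro a ha b hb
      obtain ⟨a', ha', rfl⟩ := Finset.mem_image.1 ha
      obtain ⟨b', hb', rfl⟩ := Finset.mem_image.1 hb
      by_cases hab : a' = b'
      · rw [hab]; simp [dd]
      · rcases (hs ha' hb' hab).2 with h | h
        · rw [h]; simp [dd]
        · exact (hdist _ _).1 h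
    rwa [Finset.card_image_of_injective s hinj] at e1)
  have hcard : ∀ I : Finset (Σ v : Fin n, Fin (x v)), y I ≠ 0 → I.card ≤ q := by
    intro I hI0
    have e1 : (I.image (fun a => a.1)).card ≤ q := by
      apply h3
      intro a ha b hb hab
      obtain ⟨a', ha', rfl⟩ := Finset.mem_image.1 ha
      obtain ⟨b', hb', rfl⟩ := Finset.mem_image.1 hb
      have hne : a' ≠ b' := fun h => hab (by rw [h])
      have h5 := y2 I hI0 ha' hb' hne
      by_contra hcon
      push Not at hcon
      exact h5 ⟨hne, Or.inr ((hdist _ _).2 hcon)⟩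
    rwa [Finset.card_image_of_injective I hinj] at e1
  have hn : (n : ℝ) ≤ q * ∑ I : Finset (Σ v : Fin n, Fin (x v)), y I := by
    have e1 : (n : ℝ) = ∑ _u : (Σ v : Fin n, Fin (x v)), (1 : ℝ) := by
      rw [Finset.sum_const, Finset.card_univ, nsmul_eq_mul, mul_one]
      simp [Fintype.card_sigma, x]
    rw [e1]
    calc ∑ _u : (Σ v : Fin n, Fin (x v)), (1 : ℝ)
        ≤ ∑ u : (Σ v : Fin n, Fin (x v)),
            ∑ I : Finset (Σ v : Fin n, Fin (x v)), (if u ∈ I then y I else 0) :=
          Finset.sum_le_sum fun u _ => y3 u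
      _ = ∑ I : Finset (Σ v : Fin n, Fin (x v)),
            ∑ u : (Σ v : Fin n, Fin (x v)), (if u ∈ I then y I else 0) := Finset.sum_comm
      _ = ∑ I : Finset (Σ v : Fin n, Fin (x v)), (I.card : ℝ) * y I := by
          apply Finset.sum_congr rfl
          intro I _
          rw [Finset.sum_ite_mem, Finset.univ_inter, Finset.sum_const, nsmul_eq_mul]
      _ ≤ ∑ I : Finset (Σ v : Fin n, Fin (x v)), q * y I := by
          apply Finset.sum_le_sum
          intro I _
          by_cases hI0 : y I = 0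
          · rw [hI0]; simp
          · have := hcard I hI0
            exact mul_le_mul_of_nonneg_right (by exact_mod_cast this) (y1 I)
      _ = q * ∑ I : Finset (Σ v : Fin n, Fin (x v)), y I := by rw [Finset.mul_sum]
  have : (n : ℝ) ≤ q * c * k := by
    calc (n : ℝ) ≤ q * ∑ I : Finset (Σ v : Fin n, Fin (x v)), y I := hn
      _ ≤ q * (c * k) := mul_le_mul_of_nonneg_left y4 (Nat.cast_nonneg q)
      _ = q * c * k := by ring
  linarith

end Pool.Agent.NS45
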