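import Mathlib

/-!
Points in two parallel strips: definition.
-/

set_option autoImplicit false

namespace Pool.Agent.NS45

/-- the points lie in two parallel strips of width `η` at distance at least `g` from each other: the
unit vector `(a, b)` is orthogonal to the strips -/
def InTwoStrips (η g : ℝ) {n : ℕ} (p : Fin n → EuclideanSpace ℝ (Fin 2)) : Prop :=
  ∃ a b c c' : ℝ, a ^ 2 + b ^ 2 = 1 ∧ c + η + g ≤ c' ∧
    ∀ u, (c ≤ a * p u 0 + b * p u 1 ∧ a * p u 0 + b * p u 1 ≤ c + η) ∨
      (c' ≤ a * p u 0 + b * p u 1 ∧ a * p u 0 + b * p u 1 ≤ c' + η)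

end Pool.Agent.NS45
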