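import Pool.Agent.NS45.Upper

/-!
Unit disk graphs in two parallel strips.
-/

set_option autoImplicit false

namespace Pool.Agent.NS45

open Finset Pool.Agent.UDR57

/-- the point `(x, z)` of the row `t` (`false`: the lower row) lies in the window with index `i` -/
def wnd (s θ : ℝ) (t : Bool) (x : ℝ) (i : ℤ) : Prop :=
  (t = true ↔ i % 2 = 1) ∧ 0 ≤ x - θ - i * (1 + s) ∧ x - θ - i * (1 + s) < 1 + 2 * s

/-- two windows whose indices differ by at least two are far from each other -/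
theorem wnd_far {s θ : ℝ} (hs : 0 ≤ s) {t t' : Bool} {x x' : ℝ} {i j : ℤ} (h : wnd s θ t x i)
    (h' : wnd s θ t' x' j) (hij : i + 2 ≤ j) : 1 < x' - x := by
  obtain ⟨-, h1, h2⟩ := h
  obtain ⟨-, h3, h4⟩ := h'
  have h5 : (i : ℝ) + 2 ≤ j := by exact_mod_cast hij
  have h6 := mul_le_mul_of_nonneg_right h5 (by linarith : 0 ≤ 1 + s)
  linarith

/-- two consecutive windows -/
theorem wnd_next {s θ : ℝ} {t t' : Bool} {x x' : ℝ} {i : ℤ} (h : wnd s θ t x i)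
    (h' : wnd s θ t' x' (i + 1)) : -s < x' - x ∧ t ≠ t' := by
  obtain ⟨h0, h1, h2⟩ := h
  obtain ⟨h0', h3, h4⟩ := h'
  refine ⟨?_, ?_⟩
  · push_cast at h3
    linarith
  · rintro rfl
    by_cases ht : t = true
    · have e1 := h0.1 ht
      have e2 := h0'.1 ht
      omega
    · have e1 : ¬ i % 2 = 1 := fun h => ht (h0.2 h)
      have e2 : ¬ (i + 1) % 2 = 1 := fun h => ht (h0'.2 h)
      omega

theorem wnd_same {s θ : ℝ} {t t' : Bool} {x x' : ℝ} {i : ℤ} (h : wnd s θ t x i)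
    (h' : wnd s θ t' x' i) : t = t' := by
  obtain ⟨h0, -, -⟩ := h
  obtain ⟨h0', -, -⟩ := h'
  have : t = true ↔ t' = true := h0.trans h0'.symm
  cases t <;> cases t' <;> simp_all

variable {V : Type*} [DecidableEq V]

/-- the points in the windows of a pattern are coloured with `k` colours -/
theorem colour_rows (X Y : V → ℝ) (t : V → Bool) {s ρ η g : ℝ} (hs0 : 0 ≤ s) (hρ0 : 0 ≤ ρ)
    (hη0 : 0 ≤ η) (hη : η ^ 2 ≤ 3 / 4) (hsr : (s + ρ) ^ 2 + η ^ 2 ≤ 1) (hg0 : 0 ≤ g)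
    (hρg : 1 ≤ ρ ^ 2 + g ^ 2) (hrow : ∀ u v, t u = t v → |Y u - Y v| ≤ η)
    (hrow' : ∀ u v, t u ≠ t v → g ≤ |Y u - Y v|) (k : ℕ)
    (hk : ∀ s : Finset V, (∀ a ∈ s, ∀ b ∈ s, dd X Y a b ≤ 1) → s.card ≤ k) (θ : ℝ)
    (E : Finset V) (hE : ∀ v ∈ E, ∃ i : ℤ, wnd s θ (t v) (X v) i) :
    ∃ c : V → ℕ, (∀ a ∈ E, c a < k) ∧
      ∀ a ∈ E, ∀ b ∈ E, a ≠ b → c a = c b → ¬ dd X Y a b ≤ 1 := by
  classical
  let ix : V → ℤ := fun v => if h : ∃ i : ℤ, wnd s θ (t v) (X v) i then h.choose else 0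
  have hix : ∀ v ∈ E, wnd s θ (t v) (X v) (ix v) := by
    intro v hv
    have h := hE v hv
    simp only [ix, dif_pos h]
    exact h.choose_spec
  -- a far pair of one row
  have hsame : ∀ a b, t a = t b → 1 < dd X Y a b → X a ≤ X b → (s + ρ < X b - X a) ∧
      1 / 2 < X b - X a := by
    intro a b hab h hx
    have h1 : (Y a - Y b) ^ 2 ≤ η ^ 2 := by
      rw [← sq_abs]; exact pow_le_pow_left₀ (abs_nonneg _) (hrow a b hab) 2
    have h2 : (X b - X a) ^ 2 = (X a - X b) ^ 2 := by ring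
    unfold dd at h
    have h3 : 0 ≤ X b - X a := by linarith
    refine ⟨?_, ?_⟩
    · exact lt_of_pow_lt_pow_left₀ 2 h3 (by linarith)
    · exact lt_of_pow_lt_pow_left₀ 2 h3 (by norm_num; linarith)
  -- distant points
  have hfar : ∀ a b, 1 < X b - X a → 1 < dd X Y a b := by
    intro a b h
    have h2 : (X a - X b) ^ 2 = (X b - X a) ^ 2 := by ring
    have h3 : 1 < (X b - X a) ^ 2 := by nlinarith
    unfold dd
    have := sq_nonneg (Y a - Y b)
    linarith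
  have hcross : ∀ a b, t a ≠ t b → ρ < X b - X a → 1 < dd X Y a b := by
    intro a b hab h
    have h1 : g ^ 2 ≤ (Y a - Y b) ^ 2 := by
      rw [← sq_abs (Y a - Y b)]; exact pow_le_pow_left₀ hg0 (hrow' a b hab) 2
    have h2 : (X a - X b) ^ 2 = (X b - X a) ^ 2 := by ring
    have h3 : ρ ^ 2 < (X b - X a) ^ 2 := pow_lt_pow_left₀ h hρ0 two_ne_zero
    unfold dd
    linarith
  let R : V → V → Prop := fun a b =>
    1 < dd X Y a b ∧ (ix a < ix b ∨ (ix a = ix b ∧ X a < X b))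
  have htr : ∀ a ∈ E, ∀ b ∈ E, ∀ c ∈ E, R a b → R b c → R a c := by
    intro a ha b hb c hc hab hbc
    have wa := hix a ha
    have wb := hix b hb
    have wc := hix c hc
    obtain ⟨d1, h1⟩ := hab
    obtain ⟨d2, h2⟩ := hbc
    have hord : ix a < ix c ∨ (ix a = ix c ∧ X a < X c) := by
      rcases h1 with h1 | ⟨h1, h1'⟩
      · rcases h2 with h2 | ⟨h2, h2'⟩
        · exact Or.inl (h1.trans h2)
        · exact Or.inl (h2 ▸ h1)
      · rcases h2 with h2 | ⟨h2, h2'⟩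
        · exact Or.inl (h1 ▸ h2)
        · exact Or.inr ⟨h1.trans h2, h1'.trans h2'⟩
    refine ⟨?_, hord⟩
    by_cases hfar2 : ix a + 2 ≤ ix c
    · exact hfar a c (wnd_far hs0 wa wc hfar2)
    rcases h1 with h1 | ⟨h1, h1'⟩
    · rcases h2 with h2 | ⟨h2, h2'⟩
      · exfalso; omega
      · -- `b`, `c` in one window, `a` in the window before
        have e1 : ix b = ix a + 1 := by omega
        have wb' : wnd s θ (t b) (X b) (ix a + 1) := e1 ▸ wb
        have wc' : wnd s θ (t c) (X c) (ix a + 1) := by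
          have : ix c = ix a + 1 := by omega
          exact this ▸ wc
        obtain ⟨n1, n2⟩ := wnd_next wa wb'
        have tbc := wnd_same wb' wc'
        obtain ⟨m1, -⟩ := hsame b c tbc d2 h2'.le
        exact hcross a c (tbc ▸ n2) (by linarith)
    · rcases h2 with h2 | ⟨h2, h2'⟩
      · -- `a`, `b` in one window, `c` in the next one
        have e1 : ix c = ix a + 1 := by omega
        have wb' : wnd s θ (t b) (X b) (ix a) := h1 ▸ wb
        have wc' : wnd s θ (t c) (X c) (ix a + 1) := e1 ▸ wc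
        obtain ⟨n1, n2⟩ := wnd_next wb' wc'
        have tab := wnd_same wa wb'
        obtain ⟨m1, -⟩ := hsame a b tab d1 h1'.le
        exact hcross a c (tab ▸ n2) (by linarith)
      · have wb' : wnd s θ (t b) (X b) (ix a) := h1 ▸ wb
        have wc' : wnd s θ (t c) (X c) (ix a) := (h1.trans h2) ▸ wc
        have tab := wnd_same wa wb'
        have tbc := wnd_same wb' wc'
        obtain ⟨-, m1⟩ := hsame a b tab d1 h1'.le
        obtain ⟨-, m2⟩ := hsame b c tbc d2 h2'.le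
        exact hfar a c (by linarith)
  have hir : ∀ a ∈ E, ¬ R a a := by
    rintro a _ ⟨h, -⟩
    unfold dd at h
    norm_num at h
  have hanti : ∀ s ⊆ E, (∀ a ∈ s, ∀ b ∈ s, ¬ R a b) → s.card ≤ k := by
    intro S hS hS2
    apply hk
    intro a ha b hb
    by_contra hcon
    push Not at hcon
    have hcon' : 1 < dd X Y b a := by rw [dd_symm]; exact hcon
    have r1 := hS2 a ha b hb
    have r2 := hS2 b hb a ha
    simp only [R, not_and, not_or, not_lt] at r1 r2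
    obtain ⟨r3, r4⟩ := r1 hcon
    obtain ⟨r5, r6⟩ := r2 hcon'
    have e1 : ix a = ix b := le_antisymm r5 r3
    have e2 : X a = X b := le_antisymm (r6 e1.symm) (r4 e1)
    have wa := hix a (hS ha)
    have wb : wnd s θ (t b) (X b) (ix a) := e1 ▸ hix b (hS hb)
    have tab := wnd_same wa wb
    obtain ⟨-, m1⟩ := hsame a b tab hcon e2.le
    linarith
  obtain ⟨c, hc1, hc2⟩ := dilworth R E.card E k rfl htr hir hanti
  refine ⟨c, hc1, fun a ha b hb hab hcc => ?_⟩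
  rw [not_le]
  rcases hc2 a ha b hb hab hcc with h | h
  · exact h.1
  · rw [dd_symm]; exact h.1

/-- the fractional colouring with an arbitrarily small loss -/
theorem rows_eps [Fintype V] (X Y : V → ℝ) (t : V → Bool) {s ρ η g : ℝ} (hs0 : 0 ≤ s)
    (hρ0 : 0 ≤ ρ)
    (hη0 : 0 ≤ η) (hη : η ^ 2 ≤ 3 / 4) (hsr : (s + ρ) ^ 2 + η ^ 2 ≤ 1) (hg0 : 0 ≤ g)
    (hρg : 1 ≤ ρ ^ 2 + g ^ 2) (hrow : ∀ u v, t u = t v → |Y u - Y v| ≤ η)
    (hrow' : ∀ u v, t u ≠ t v → g ≤ |Y u - Y v|) (k : ℕ) (hk0 : 0 < k)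
    (hk : ∀ s : Finset V, (∀ a ∈ s, ∀ b ∈ s, dd X Y a b ≤ 1) → s.card ≤ k) (ε : ℝ) (hε : 0 < ε) :
    ∃ y : Finset V → ℝ, (∀ I, 0 ≤ y I) ∧
      (∀ I, y I ≠ 0 → ∀ a ∈ I, ∀ b ∈ I, a ≠ b → ¬ dd X Y a b ≤ 1) ∧
      (∀ u : V, 1 ≤ ∑ I : Finset V, if u ∈ I then y I else 0) ∧
      (∑ I : Finset V, y I) ≤ (1 + 1 / (1 + 2 * s)) * k + ε := by
  classical
  have hk0r : (0 : ℝ) < k := by exact_mod_cast hk0
  -- the number of shifts
  obtain ⟨n, hn⟩ := exists_nat_gt (2 * k / ε)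
  -- `N` shifts
  set q : ℝ := (1 + 2 * s) / (2 + 2 * s) with hq
  have hq0 : 0 < q := by rw [hq]; positivity
  have hq2 : 1 / 2 ≤ q := by
    rw [hq, le_div_iff₀ (by positivity)]; linarith
  have hqi : 1 / q = 1 + 1 / (1 + 2 * s) := by
    rw [hq]; field_simp; ring
  set N : ℕ := 2 * (n + 1) with hN
  have hN0 : 0 < N := by omega
  have hNr : (N : ℝ) = 2 * (n + 1) := by rw [hN]; push_cast; ring
  set M : ℕ := ⌊(N : ℝ) * q⌋₊ with hM
  have hM1 : (M : ℝ) ≤ N * q := Nat.floor_le (by positivity)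
  have hM2 : (N : ℝ) * q < M + 1 := Nat.lt_floor_add_one _
  have hn0 : (0 : ℝ) ≤ n := Nat.cast_nonneg n
  have hMn : (n : ℝ) < M := by
    have : (N : ℝ) * (1 / 2) ≤ N * q := mul_le_mul_of_nonneg_left hq2 (by positivity)
    rw [hNr] at this hM2
    linarith
  have hM0 : 0 < (M : ℝ) := lt_of_le_of_lt hn0 hMn
  have hMp : (M : ℝ) * (2 + 2 * s) ≤ N * (1 + 2 * s) := by
    have h1 : (M : ℝ) * (2 + 2 * s) ≤ N * q * (2 + 2 * s) :=
      mul_le_mul_of_nonneg_right hM1 (by positivity)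
    have h2 : (N : ℝ) * q * (2 + 2 * s) = N * (1 + 2 * s) := by rw [hq]; field_simp
    linarith
  let th : ℕ → ℝ := fun j => (2 + 2 * s) * (j / N)
  let E : ℕ → Finset V := fun j =>
    Finset.univ.filter fun v => ∃ i : ℤ, wnd s (th j) (t v) (X v) i
  have hcol : ∀ j, ∃ c : V → ℕ, (∀ a ∈ E j, c a < k) ∧
      ∀ a ∈ E j, ∀ b ∈ E j, a ≠ b → c a = c b → ¬ dd X Y a b ≤ 1 := fun j =>
    colour_rows X Y t hs0 hρ0 hη0 hη hsr hg0 hρg hrow hrow' k hk (th j) (E j)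
      fun v hv => (Finset.mem_filter.1 hv).2
  choose c hc1 hc2 using hcol
  let S : ℕ × ℕ → Finset V := fun p => (E p.1).filter fun v => c p.1 v = p.2
  have hind : ∀ p ∈ range N ×ˢ range k, ∀ a ∈ S p, ∀ b ∈ S p, a ≠ b → ¬ dd X Y a b ≤ 1 := by
    intro p _ a ha b hb hab
    obtain ⟨ha1, ha2⟩ := Finset.mem_filter.1 ha
    obtain ⟨hb1, hb2⟩ := Finset.mem_filter.1 hb
    exact hc2 p.1 a ha1 b hb1 hab (ha2.trans hb2.symm)
  have hkw : ∀ (θ : ℝ) (u : V),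
      kp 1 s θ (if t u = true then X u - (1 + s) else X u) 0 →
        ∃ i : ℤ, wnd s θ (t u) (X u) i := by
    rintro θ u ⟨m, h1, h2⟩
    unfold ph at h1 h2
    rw [if_pos (by norm_num : (0 : ℝ) < 1 / 2)] at h1 h2
    by_cases ht : t u = true
    · rw [if_pos ht] at h1 h2
      refine ⟨2 * m + 1, ⟨fun _ => by omega, fun _ => ht⟩, ?_, ?_⟩
      · push_cast; linarith
      · push_cast; linarith
    · rw [if_neg ht] at h1 h2
      refine ⟨2 * m, ⟨fun h => absurd h ht, fun h => by omega⟩, ?_, ?_⟩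
      · push_cast; linarith
      · push_cast; linarith
  have hcov : ∀ u : V, (M : ℝ) ≤ (((range N ×ˢ range k).filter fun p => u ∈ S p).card : ℝ) := by
    intro u
    have h1 := count_kp 1 s (if t u = true then X u - (1 + s) else X u) 0 hs0 N M hN0 hMp
    have h2 : ((range N).filter fun j : ℕ => kp 1 s ((2 + 2 * s) * (j / N))
        (if t u = true then X u - (1 + s) else X u) 0).card ≤
        ((range N ×ˢ range k).filter fun p => u ∈ S p).card := by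
      apply Finset.card_le_card_of_injOn (fun j => (j, c j u))
      · intro j hj
        rw [Finset.mem_coe, Finset.mem_filter] at hj
        have hE : u ∈ E j := Finset.mem_filter.2 ⟨Finset.mem_univ _, hkw _ u hj.2⟩
        rw [Finset.mem_coe, Finset.mem_filter]
        refine ⟨Finset.mem_product.2 ⟨hj.1, Finset.mem_range.2 (hc1 j u hE)⟩, ?_⟩
        exact Finset.mem_filter.2 ⟨hE, rfl⟩
      · intro j _ j' _ h
        exact (Prod.ext_iff.1 h).1
    exact_mod_cast h1.trans h2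
  obtain ⟨y, hy1, hy2, hy3, hy4⟩ := of_family (range N ×ˢ range k) S
    (fun I => ∀ a ∈ I, ∀ b ∈ I, a ≠ b → ¬ dd X Y a b ≤ 1) hind (M : ℝ) hM0 hcov
  refine ⟨y, hy1, hy2, hy3, ?_⟩
  rw [hy4, Finset.card_product, Finset.card_range, Finset.card_range, ← hqi]
  push_cast
  rw [div_le_iff₀ hM0]
  -- `N k ≤ (k / q + ε) M`
  have h1 : (N : ℝ) ≤ 1 / q * (M + 1) := by
    rw [one_div, ← div_eq_inv_mul, le_div_iff₀ hq0]
    exact hM2.le
  have h2 : 1 / q ≤ 2 := by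
    rw [div_le_iff₀ hq0]; linarith
  have h3 : 2 * (k : ℝ) ≤ ε * M := by
    have : 2 * (k : ℝ) / ε < M := hn.trans hMn
    rw [div_lt_iff₀ hε] at this
    linarith
  nlinarith

theorem rows_frac [Fintype V] (X Y : V → ℝ) (t : V → Bool) {s ρ η g : ℝ} (hs0 : 0 ≤ s)
    (hρ0 : 0 ≤ ρ)
    (hη0 : 0 ≤ η) (hη : η ^ 2 ≤ 3 / 4) (hsr : (s + ρ) ^ 2 + η ^ 2 ≤ 1) (hg0 : 0 ≤ g)
    (hρg : 1 ≤ ρ ^ 2 + g ^ 2) (hrow : ∀ u v, t u = t v → |Y u - Y v| ≤ η)
    (hrow' : ∀ u v, t u ≠ t v → g ≤ |Y u - Y v|) (k : ℕ) (hk0 : 0 < k)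
    (hk : ∀ s : Finset V, (∀ a ∈ s, ∀ b ∈ s, dd X Y a b ≤ 1) → s.card ≤ k) :
    ∃ y : Finset V → ℝ, (∀ I, 0 ≤ y I) ∧
      (∀ I, y I ≠ 0 → ∀ a ∈ I, ∀ b ∈ I, a ≠ b → ¬ dd X Y a b ≤ 1) ∧
      (∀ u : V, 1 ≤ ∑ I : Finset V, if u ∈ I then y I else 0) ∧
      (∑ I : Finset V, y I) ≤ (1 + 1 / (1 + 2 * s)) * k :=
  frac_closed (fun I => ∀ a ∈ I, ∀ b ∈ I, a ≠ b → ¬ dd X Y a b ≤ 1) _
    fun ε hε => rows_eps X Y t hs0 hρ0 hη0 hη hsr hg0 hρg hrow hrow' k hk0 hk ε hε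

end Pool.Agent.NS45
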