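import Pool.Agent.NS45.Defs
import Pool.Agent.UDR57.Fam

/-!
From fractional colourings of families of points to the imperfection ratio.
-/

set_option autoImplicit false

namespace Pool.Agent.NS45

open Finset Pool.Agent.UDR57

theorem ImpLE.mono {n : ℕ} {p : Fin n → EuclideanSpace ℝ (Fin 2)} {c c' : ℝ} (h : ImpLE p c)
    (hc : c ≤ c') : ImpLE p c' := by
  intro x H hH k hk
  obtain ⟨y, y1, y2, y3, y4⟩ := h x H hH k hk
  exact ⟨y, y1, y2, y3, y4.trans (mul_le_mul_of_nonneg_right hc (Nat.cast_nonneg k))⟩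

/-- the fractional colourings of families of points bound the imperfection ratio -/
theorem impLE_of {n : ℕ} (p : Fin n → EuclideanSpace ℝ (Fin 2)) (c : ℝ) (hc : 0 ≤ c)
    (X Y : Fin n → ℝ)
    (hXY : ∀ u v, (X u - X v) ^ 2 + (Y u - Y v) ^ 2 = (p u 0 - p v 0) ^ 2 + (p u 1 - p v 1) ^ 2)
    (hF : ∀ (V : Type) [Fintype V] [DecidableEq V] (f : V → Fin n) (k : ℕ), 0 < k →
      (∀ s : Finset V, (∀ a ∈ s, ∀ b ∈ s, dd (fun v => X (f v)) (fun v => Y (f v)) a b ≤ 1) →
        s.card ≤ k) →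
      ∃ y : Finset V → ℝ, (∀ I, 0 ≤ y I) ∧
        (∀ I, y I ≠ 0 → ∀ a ∈ I, ∀ b ∈ I, a ≠ b →
          ¬ dd (fun v => X (f v)) (fun v => Y (f v)) a b ≤ 1) ∧
        (∀ u : V, 1 ≤ ∑ I : Finset V, if u ∈ I then y I else 0) ∧
        (∑ I : Finset V, y I) ≤ c * k) :
    ImpLE p c := by
  classical
  intro x H hH k hk
  let f : (Σ v : Fin n, Fin (x v)) → Fin n := fun a => a.1
  have hdist : ∀ u v : (Σ v : Fin n, Fin (x v)),
      (u.1 = v.1 ∨ dist (p u.1) (p v.1) ≤ 1) ↔
        dd (fun v => X (f v)) (fun v => Y (f v)) u v ≤ 1 := by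
    intro u v
    have h1 : dd (fun v => X (f v)) (fun v => Y (f v)) u v =
        (p u.1 0 - p v.1 0) ^ 2 + (p u.1 1 - p v.1 1) ^ 2 := hXY u.1 v.1
    rw [EuclideanSpace.dist_eq, Real.sqrt_le_one, Fin.sum_univ_two, Real.dist_eq, Real.dist_eq,
      sq_abs, sq_abs, h1]
    constructor
    · rintro (h | h)
      · rw [h]; norm_num
      · exact h
    · exact fun h => Or.inr h
  have hk' : ∀ s : Finset (Σ v : Fin n, Fin (x v)),
      (∀ a ∈ s, ∀ b ∈ s, dd (fun v => X (f v)) (fun v => Y (f v)) a b ≤ 1) → s.card ≤ k := by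
    intro s hs
    apply hk
    intro u hu v hv huv
    rw [hH]
    exact ⟨huv, (hdist u v).2 (hs u hu v hv)⟩
  rcases Nat.eq_zero_or_pos k with hk0 | hk0
  · have hempty : IsEmpty (Σ v : Fin n, Fin (x v)) := by
      constructor
      intro u
      have h1 := hk' {u} (by
        intro b hb c hc
        rw [Finset.mem_singleton] at hb hc
        rw [hb, hc]
        simp [dd])
      simp [hk0] at h1
    refine ⟨fun _ => 0, fun _ => le_rfl, fun I hI => absurd rfl hI, fun w => hempty.elim w, ?_⟩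
    simp [hk0]
  · obtain ⟨y, hy1, hy2, hy3, hy4⟩ := hF _ f k hk0 hk'
    refine ⟨y, hy1, ?_, ?_, hy4⟩
    · intro I hI u hu v hv huv hadj
      exact hy2 I hI u hu v hv huv ((hdist u v).1 ((hH u v).1 hadj).2)
    · intro w
      refine (hy3 w).trans (le_of_eq ?_)
      apply Finset.sum_congr rfl
      intro I _
      exact if_congr Iff.rfl rfl rfl

end Pool.Agent.NS45
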