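import Pool.Agent.UDR57.Fam
import Pool.Agent.NS45.Lim

/-!
Unit disk graphs in a strip of width at most one: periodic windows on the two halves of the strip.
-/

set_option autoImplicit false

namespace Pool.Agent.NS45

open Finset Pool.Agent.UDR57

/-- three points, in the order of the first coordinate, which are not transitive -/
theorem bad_triple {w r x1 y1 x2 y2 x3 y3 : ℝ} (hw1 : w ≤ 1) (hr : r ^ 2 = 1 - w ^ 2)
    (h1 : 0 ≤ y1 ∧ y1 ≤ w) (h2 : 0 ≤ y2 ∧ y2 ≤ w) (h3 : 0 ≤ y3 ∧ y3 ≤ w)
    (hx : x1 < x2) (hx' : x2 < x3) (d12 : 1 < (x1 - x2) ^ 2 + (y1 - y2) ^ 2)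
    (d23 : 1 < (x2 - x3) ^ 2 + (y2 - y3) ^ 2) (d13 : (x1 - x3) ^ 2 + (y1 - y3) ^ 2 ≤ 1) :
    ((y1 < w / 2 ∧ w / 2 ≤ y2 ∧ y3 < w / 2) ∨ (w / 2 ≤ y1 ∧ y2 < w / 2 ∧ w / 2 ≤ y3)) ∧
      r < x2 - x1 ∧ r < x3 - x2 ∧ x3 - x1 ≤ 1 := by
  have hu : 0 < x2 - x1 := by linarith
  have hv : 0 < x3 - x2 := by linarith
  have hst : 1 / 2 < (y2 - y1) * (y2 - y3) := by
    have huv := mul_pos hu hv
    have e : (x1 - x3) ^ 2 + (y1 - y3) ^ 2 = ((x1 - x2) ^ 2 + (y1 - y2) ^ 2) +
        ((x2 - x3) ^ 2 + (y2 - y3) ^ 2) + 2 * ((x2 - x1) * (x3 - x2)) -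
        2 * ((y2 - y1) * (y2 - y3)) := by ring
    linarith
  have hs : |y2 - y1| ≤ w := by rw [abs_le]; constructor <;> linarith [h1.1, h1.2, h2.1, h2.2]
  have ht : |y2 - y3| ≤ w := by rw [abs_le]; constructor <;> linarith [h3.1, h3.2, h2.1, h2.2]
  have hs2 : (y1 - y2) ^ 2 ≤ w ^ 2 := by
    have : (y1 - y2) ^ 2 = |y2 - y1| ^ 2 := by rw [sq_abs]; ring
    rw [this]; exact pow_le_pow_left₀ (abs_nonneg _) hs 2
  have ht2 : (y2 - y3) ^ 2 ≤ w ^ 2 := by
    rw [← sq_abs]; exact pow_le_pow_left₀ (abs_nonneg _) ht 2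
  refine ⟨?_, ?_, ?_, ?_⟩
  · rcases le_total 0 (y2 - y1) with hp | hp
    · left
      have hq : 0 < y2 - y3 := by
        by_contra hcon
        push Not at hcon
        have := mul_nonpos_of_nonneg_of_nonpos hp hcon
        linarith
      have e1 : 1 / 2 < y2 - y1 := by
        have h5 : y2 - y3 ≤ 1 := by linarith [h2.2, h3.1]
        have := mul_le_of_le_one_right hp h5
        linarith
      have e2 : 1 / 2 < y2 - y3 := by
        have h5 : y2 - y1 ≤ 1 := by linarith [h2.2, h1.1]
        have := mul_le_of_le_one_left hq.le h5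
        linarith
      refine ⟨?_, ?_, ?_⟩
      · linarith [h2.2]
      · linarith [h1.1]
      · linarith [h2.2]
    · right
      have hst' : (y2 - y1) * (y2 - y3) = (y1 - y2) * (y3 - y2) := by ring
      rw [hst'] at hst
      have hp' : 0 ≤ y1 - y2 := by linarith
      have hq : 0 < y3 - y2 := by
        by_contra hcon
        push Not at hcon
        have := mul_nonpos_of_nonneg_of_nonpos hp' hcon
        linarith
      have e1 : 1 / 2 < y1 - y2 := by
        have h5 : y3 - y2 ≤ 1 := by linarith [h3.2, h2.1]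
        have := mul_le_of_le_one_right hp' h5
        linarith
      have e2 : 1 / 2 < y3 - y2 := by
        have h5 : y1 - y2 ≤ 1 := by linarith [h1.2, h2.1]
        have := mul_le_of_le_one_left hq.le h5
        linarith
      refine ⟨?_, ?_, ?_⟩
      · linarith [h2.1]
      · linarith [h1.2]
      · linarith [h2.1]
  · have h5 : r ^ 2 < (x2 - x1) ^ 2 := by
      have : (x2 - x1) ^ 2 = (x1 - x2) ^ 2 := by ring
      linarith
    exact lt_of_pow_lt_pow_left₀ 2 hu.le h5
  · have h5 : r ^ 2 < (x3 - x2) ^ 2 := by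
      have : (x3 - x2) ^ 2 = (x2 - x3) ^ 2 := by ring
      linarith
    exact lt_of_pow_lt_pow_left₀ 2 hv.le h5
  · have h0 : 0 ≤ x3 - x1 := by linarith
    have h5 : (x3 - x1) ^ 2 ≤ 1 := by
      have : (x3 - x1) ^ 2 = (x1 - x3) ^ 2 := by ring
      linarith [sq_nonneg (y1 - y3)]
    exact (sq_le_one_iff₀ h0).1 h5

/-- the shifted first coordinate -/
noncomputable def ph (w r x y : ℝ) : ℝ := if y < w / 2 then x else x - (1 + r)

/-- the point lies in a window of the pattern shifted by `θ` -/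
def kp (w r θ x y : ℝ) : Prop :=
  ∃ m : ℤ, 0 ≤ ph w r x y - θ - m * (2 + 2 * r) ∧ ph w r x y - θ - m * (2 + 2 * r) < 1 + 2 * r

theorem kp_trans {w r θ x1 y1 x2 y2 x3 y3 : ℝ} (hr0 : 0 ≤ r) (hw1 : w ≤ 1)
    (hr : r ^ 2 = 1 - w ^ 2)
    (h1 : 0 ≤ y1 ∧ y1 ≤ w) (h2 : 0 ≤ y2 ∧ y2 ≤ w) (h3 : 0 ≤ y3 ∧ y3 ≤ w)
    (k1 : kp w r θ x1 y1) (k2 : kp w r θ x2 y2) (k3 : kp w r θ x3 y3)
    (hx : x1 < x2) (hx' : x2 < x3) (d12 : 1 < (x1 - x2) ^ 2 + (y1 - y2) ^ 2)
    (d23 : 1 < (x2 - x3) ^ 2 + (y2 - y3) ^ 2) : 1 < (x1 - x3) ^ 2 + (y1 - y3) ^ 2 := by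
  by_contra hcon
  push Not at hcon
  obtain ⟨hcase, hr1, hr2, h31⟩ := bad_triple hw1 hr h1 h2 h3 hx hx' d12 d23 hcon
  obtain ⟨m1, a1, b1⟩ := k1
  obtain ⟨m2, a2, b2⟩ := k2
  obtain ⟨m3, a3, b3⟩ := k3
  have hp : 0 < 2 + 2 * r := by linarith
  -- common index of the two outer points
  have hph : ph w r x3 y3 - ph w r x1 y1 = x3 - x1 := by
    unfold ph
    rcases hcase with ⟨c1, c2, c3⟩ | ⟨c1, c2, c3⟩
    · rw [if_pos c1, if_pos c3]
    · rw [if_neg (not_lt.2 c1), if_neg (not_lt.2 c3)]; ring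
  have hm : m3 = m1 := by
    rcases lt_trichotomy m3 m1 with h | h | h
    · exfalso
      have h' : (m3 : ℝ) + 1 ≤ m1 := by exact_mod_cast h
      have h'' := mul_le_mul_of_nonneg_right h' hp.le
      linarith
    · exact h
    · exfalso
      have h' : (m1 : ℝ) + 1 ≤ m3 := by exact_mod_cast h
      have h'' := mul_le_mul_of_nonneg_right h' hp.le
      linarith
  subst hm
  rcases hcase with ⟨c1, c2, c3⟩ | ⟨c1, c2, c3⟩
  · unfold ph at a1 b1 a2 b2 a3 b3
    rw [if_pos c1] at a1 b1
    rw [if_neg (not_lt.2 c2)] at a2 b2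
    rw [if_pos c3] at a3 b3
    rcases le_or_gt m3 m2 with h | h
    · have h' : (m3 : ℝ) ≤ m2 := by exact_mod_cast h
      have h'' := mul_le_mul_of_nonneg_right h' hp.le
      linarith
    · have h' : (m2 : ℝ) + 1 ≤ m3 := by exact_mod_cast h
      have h'' := mul_le_mul_of_nonneg_right h' hp.le
      linarith
  · unfold ph at a1 b1 a2 b2 a3 b3
    rw [if_neg (not_lt.2 c1)] at a1 b1
    rw [if_pos c2] at a2 b2
    rw [if_neg (not_lt.2 c3)] at a3 b3
    rcases le_or_gt m2 m3 with h | h
    · have h' : (m2 : ℝ) ≤ m3 := by exact_mod_cast h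
      have h'' := mul_le_mul_of_nonneg_right h' hp.le
      linarith
    · have h' : (m3 : ℝ) + 1 ≤ m2 := by exact_mod_cast h
      have h'' := mul_le_mul_of_nonneg_right h' hp.le
      linarith

open Classical in
/-- every point is kept by almost the right proportion of the shifts -/
theorem count_kp (w r x y : ℝ) (hr0 : 0 ≤ r) (N M : ℕ) (hN : 0 < N)
    (hM : (M : ℝ) * (2 + 2 * r) ≤ N * (1 + 2 * r)) :
    M ≤ ((range N).filter fun j : ℕ => kp w r ((2 + 2 * r) * (j / N)) x y).card := by
  set p : ℝ := 2 + 2 * r with hp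
  have hp0 : 0 < p := by rw [hp]; linarith
  have hNr : (0 : ℝ) < N := by exact_mod_cast hN
  have hMN : M ≤ N := by
    by_contra hcon
    push Not at hcon
    have : (N : ℝ) ≤ M := by exact_mod_cast hcon.le
    nlinarith
  set a : ℝ := ph w r x y / p with ha
  set J : ℤ := ⌊a * N⌋ with hJ
  have hJ1 : (J : ℝ) ≤ a * N := Int.floor_le _
  have hJ2 : a * N < J + 1 := Int.lt_floor_add_one _
  have hcard : (range M).card ≤
      ((range N).filter fun j : ℕ => kp w r (p * (j / N)) x y).card := by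
    apply Finset.card_le_card_of_injOn (fun i : ℕ => ((J - i) % N).toNat)
    · intro i hi
      have hi' : i < M := Finset.mem_range.1 (by simpa using hi)
      have hNz : (N : ℤ) ≠ 0 := by exact_mod_cast hN.ne'
      have h0 : 0 ≤ (J - i) % N := Int.emod_nonneg _ hNz
      have h1 : (J - i) % N < N := Int.emod_lt_of_pos _ (by exact_mod_cast hN)
      have hcast : ((((J - i) % N).toNat : ℕ) : ℤ) = (J - i) % N := Int.toNat_of_nonneg h0
      rw [Finset.mem_coe, Finset.mem_filter]
      refine ⟨Finset.mem_range.2 ?_, ?_⟩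
      · have : ((((J - i) % N).toNat : ℕ) : ℤ) < N := by rw [hcast]; exact h1
        exact_mod_cast this
      · set t : ℤ := (J - i) / N with ht
        have hdiv : (J - i) % N = (J - i) - N * t := by
          rw [ht]
          have := Int.mul_ediv_add_emod (J - i) N
          linarith
        have hj : ((((J - i) % N).toNat : ℕ) : ℝ) = (J : ℝ) - i - N * t := by
          have h2 : ((((((J - i) % N).toNat : ℕ) : ℤ)) : ℝ) = (((J - i) - N * t : ℤ) : ℝ) := by
            rw [hcast, hdiv]
          push_cast at h2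
          exact h2
        have hph : ph w r x y = p * a := by rw [ha]; field_simp
        refine ⟨t, ?_, ?_⟩
        · rw [hj, hph]
          have e1 : p * a - p * (((J : ℝ) - i - N * t) / N) - t * p
              = p / N * (a * N - J + i) := by
            field_simp
            ring
          rw [← hp, e1]
          have : (0 : ℝ) ≤ i := Nat.cast_nonneg i
          have h3 : 0 ≤ a * N - J + i := by linarith
          positivity
        · rw [hj, hph]
          have e1 : p * a - p * (((J : ℝ) - i - N * t) / N) - t * p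
              = p / N * (a * N - J + i) := by
            field_simp
            ring
          rw [← hp, e1]
          have h4 : (i : ℝ) + 1 ≤ M := by exact_mod_cast hi'
          have h3 : a * N - J + i < M := by linarith
          calc p / N * (a * N - J + i) < p / N * M := by
                apply mul_lt_mul_of_pos_left h3 (by positivity)
            _ = M * p / N := by ring
            _ ≤ 1 + 2 * r := by
                rw [div_le_iff₀ hNr]
                linarith
    · intro i hi i' hi' h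
      have hi1 : i < M := Finset.mem_range.1 (by simpa using hi)
      have hi2 : i' < M := Finset.mem_range.1 (by simpa using hi')
      have hNz : (N : ℤ) ≠ 0 := by exact_mod_cast hN.ne'
      have h0 : 0 ≤ (J - i) % N := Int.emod_nonneg _ hNz
      have h0' : 0 ≤ (J - i') % N := Int.emod_nonneg _ hNz
      have h2 : (J - i) % N = (J - i') % N := by
        have := congrArg (fun n : ℕ => (n : ℤ)) h
        simp only at this
        rw [Int.toNat_of_nonneg h0, Int.toNat_of_nonneg h0'] at this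
        exact this
      have h3 : (N : ℤ) ∣ (J - i) - (J - i') := Int.ModEq.dvd (Int.ModEq.symm h2) |> fun h => by
        simpa using h
      have h4 : (J - i) - (J - i') = (i' : ℤ) - i := by ring
      rw [h4] at h3
      have h5 : (i' : ℤ) - i = 0 := by
        apply Int.eq_zero_of_abs_lt_dvd h3
        rw [abs_lt]
        constructor <;> [skip; skip]
        · omega
        · omega
      omega
  simpa using hcard

end Pool.Agent.NS45
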