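import Pool.Agent.UDR57.Fam

/-!
Unit disk graphs in a strip of width slightly more than `√3 / 2`: the webs on `3 m + 2` vertices,
drawn in three tiny clusters at the corners of a unit triangle. Two vertices `u < v < 3 m + 2` are
at distance at most one if and only if `v - u ≤ m` or `2 m + 2 ≤ v - u`; a set of pairwise close
vertices has at most `m + 1` elements, and a set of pairwise far vertices at most two.
-/

set_option autoImplicit false

namespace Pool.Agent.NS45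

open Pool.Agent.UDR57

/-! ### The combinatorial part -/

theorem web_clique (m : ℕ) (t : Finset ℕ) (h1 : ∀ a ∈ t, a < 3 * m + 2)
    (h2 : ∀ a ∈ t, ∀ b ∈ t, a < b → b - a ≤ m ∨ 2 * m + 2 ≤ b - a) : t.card ≤ m + 1 := by
  classical
  rcases t.eq_empty_or_nonempty with h0 | h0
  · rw [h0, Finset.card_empty]; exact Nat.zero_le _
  set a := t.min' h0 with ha
  have hat : a ∈ t := t.min'_mem h0
  have hmin : ∀ x ∈ t, a ≤ x := fun x hx => t.min'_le x hx
  rcases (t.filter fun x => 2 * m + 2 ≤ x - a).eq_empty_or_nonempty with hQ | hQ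
  · have hsub : t ⊆ Finset.Icc a (a + m) := by
      intro x hx
      have hx1 := hmin x hx
      rw [Finset.mem_Icc]
      refine ⟨hx1, ?_⟩
      by_contra hc
      have hlt : a < x := by omega
      rcases h2 a hat x hx hlt with h3 | h3
      · omega
      · have : x ∈ t.filter fun x => 2 * m + 2 ≤ x - a := Finset.mem_filter.2 ⟨hx, h3⟩
        rw [hQ] at this
        exact absurd this (Finset.notMem_empty x)
    have := Finset.card_le_card hsub
    rw [Nat.card_Icc] at this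
    omega
  · set b := (t.filter fun x => 2 * m + 2 ≤ x - a).min' hQ with hb
    have hbt : b ∈ t.filter fun x => 2 * m + 2 ≤ x - a := Finset.min'_mem _ hQ
    have hbmin : ∀ x ∈ t, 2 * m + 2 ≤ x - a → b ≤ x := fun x hx hx2 =>
      Finset.min'_le _ x (Finset.mem_filter.2 ⟨hx, hx2⟩)
    obtain ⟨hbt1, hbt2⟩ := Finset.mem_filter.1 hbt
    have hb3 := h1 b hbt1
    have hsub : t ⊆ Finset.Icc a (b - (2 * m + 2)) ∪ Finset.Ico b (3 * m + 2) := by
      intro x hx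
      have hx1 := hmin x hx
      have hx2 := h1 x hx
      rw [Finset.mem_union, Finset.mem_Icc, Finset.mem_Ico]
      by_cases hxa : 2 * m + 2 ≤ x - a
      · exact Or.inr ⟨hbmin x hx hxa, hx2⟩
      · left
        have hxm : x - a ≤ m := by
          rcases Nat.eq_or_lt_of_le hx1 with h3 | h3
          · omega
          · rcases h2 a hat x hx h3 with h4 | h4
            · exact h4
            · exact absurd h4 hxa
        have hxb : x < b := by omega
        rcases h2 x hx b hbt1 hxb with h3 | h3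
        · omega
        · omega
    have h3 := Finset.card_le_card hsub
    have h4 := Finset.card_union_le (Finset.Icc a (b - (2 * m + 2))) (Finset.Ico b (3 * m + 2))
    rw [Nat.card_Icc, Nat.card_Ico] at h4
    omega

theorem web_stable (m : ℕ) (t : Finset ℕ)
    (h2 : ∀ a ∈ t, ∀ b ∈ t, a < b → m < b - a ∧ b - a < 2 * m + 2) : t.card ≤ 2 := by
  by_contra hc
  obtain ⟨a, ha, b, hb, c, hcm, hab, hac, hbc⟩ := Finset.two_lt_card.1 (not_le.1 hc)
  have e1 := h2 a ha b hb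
  have e2 := h2 b hb a ha
  have e3 := h2 a ha c hcm
  have e4 := h2 c hcm a ha
  have e5 := h2 b hb c hcm
  have e6 := h2 c hcm b hb
  rcases Nat.lt_or_gt_of_ne hab with h | h <;> rcases Nat.lt_or_gt_of_ne hac with h' | h' <;>
    rcases Nat.lt_or_gt_of_ne hbc with h'' | h'' <;>
    simp only [h, h', h'', forall_true_left] at e1 e2 e3 e4 e5 e6 <;> omega

/-! ### The drawing -/

/-- the first coordinate of the vertex `v` -/
noncomputable def wx (m : ℕ) (e : ℝ) (v : ℕ) : ℝ :=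
  if v ≤ m then -(e * v)
  else if v ≤ 2 * m + 1 then 1 / 2 + e * (2 * ((v : ℝ) - m - 1) + 1 / 2)
  else 1 - e * ((v : ℝ) - 2 * m - 2 + 1 / 2)

/-- the second coordinate of the vertex `v` -/
noncomputable def wy (m : ℕ) (e : ℝ) (v : ℕ) : ℝ :=
  if v ≤ m then e * Real.sqrt 3 * v
  else if v ≤ 2 * m + 1 then Real.sqrt 3 / 2 + e * Real.sqrt 3 / 6
  else -(e * Real.sqrt 3 * ((v : ℝ) - 2 * m - 2 + 1 / 2))

theorem wx_A {m : ℕ} {e : ℝ} {i : ℕ} (h : i ≤ m) : wx m e i = -(e * i) := by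
  rw [wx, if_pos h]

theorem wx_B {m : ℕ} {e : ℝ} {j : ℕ} (h : j ≤ m) :
    wx m e (m + 1 + j) = 1 / 2 + e * (2 * (j : ℝ) + 1 / 2) := by
  rw [wx, if_neg (by omega), if_pos (by omega)]
  push_cast
  ring

theorem wx_C {m : ℕ} {e : ℝ} {l : ℕ} : wx m e (2 * m + 2 + l) = 1 - e * ((l : ℝ) + 1 / 2) := by
  rw [wx, if_neg (by omega), if_neg (by omega)]
  push_cast
  ring

theorem wy_A {m : ℕ} {e : ℝ} {i : ℕ} (h : i ≤ m) : wy m e i = e * Real.sqrt 3 * i := by
  rw [wy, if_pos h]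

theorem wy_B {m : ℕ} {e : ℝ} {j : ℕ} (h : j ≤ m) :
    wy m e (m + 1 + j) = Real.sqrt 3 / 2 + e * Real.sqrt 3 / 6 := by
  rw [wy, if_neg (by omega), if_pos (by omega)]

theorem wy_C {m : ℕ} {e : ℝ} {l : ℕ} :
    wy m e (2 * m + 2 + l) = -(e * Real.sqrt 3 * ((l : ℝ) + 1 / 2)) := by
  rw [wy, if_neg (by omega), if_neg (by omega)]
  push_cast
  ring

/-- a vertex lies in one of the three clusters -/
theorem cluster (m v : ℕ) (hv : v < 3 * m + 2) :
    v ≤ m ∨ (∃ j, j ≤ m ∧ v = m + 1 + j) ∨ ∃ l, l < m ∧ v = 2 * m + 2 + l := by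
  rcases Nat.lt_or_ge m v with h | h
  · rcases Nat.lt_or_ge (2 * m + 1) v with h' | h'
    · exact Or.inr (Or.inr ⟨v - (2 * m + 2), by omega, by omega⟩)
    · exact Or.inr (Or.inl ⟨v - (m + 1), by omega, by omega⟩)
  · exact Or.inl h

theorem sq3 : Real.sqrt 3 * Real.sqrt 3 = 3 := Real.mul_self_sqrt (by norm_num)

/-- the squared distance of two vertices -/
noncomputable def wd (m : ℕ) (e : ℝ) (u v : ℕ) : ℝ :=
  (wx m e u - wx m e v) ^ 2 + (wy m e u - wy m e v) ^ 2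

theorem wd_comm (m : ℕ) (e : ℝ) (u v : ℕ) : wd m e u v = wd m e v u := by
  unfold wd; ring

theorem wd_AA {m : ℕ} {e : ℝ} {i j : ℕ} (hi : i ≤ m) (hj : j ≤ m) :
    wd m e i j = 4 * (e * ((i : ℝ) - j)) ^ 2 := by
  rw [wd, wx_A hi, wx_A hj, wy_A hi, wy_A hj]
  linear_combination (e * ((i : ℝ) - j)) ^ 2 * sq3

theorem wd_BB {m : ℕ} {e : ℝ} {i j : ℕ} (hi : i ≤ m) (hj : j ≤ m) :
    wd m e (m + 1 + i) (m + 1 + j) = 4 * (e * ((i : ℝ) - j)) ^ 2 := by
  rw [wd, wx_B hi, wx_B hj, wy_B hi, wy_B hj]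
  ring

theorem wd_CC {m : ℕ} {e : ℝ} {i j : ℕ} :
    wd m e (2 * m + 2 + i) (2 * m + 2 + j) = 4 * (e * ((i : ℝ) - j)) ^ 2 := by
  rw [wd, wx_C, wx_C, wy_C, wy_C]
  linear_combination (e * ((i : ℝ) - j)) ^ 2 * sq3

theorem wd_AB {m : ℕ} {e : ℝ} {i j : ℕ} (hi : i ≤ m) (hj : j ≤ m) :
    wd m e i (m + 1 + j) = 1 + e * (2 * (j : ℝ) - 2 * i + 1) +
      e * (e * ((2 * (j : ℝ) + 1 / 2 + i) ^ 2 + 3 * (1 / 6 - (i : ℝ)) ^ 2)) := by
  rw [wd, wx_A hi, wx_B hj, wy_A hi, wy_B hj]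
  linear_combination (1 / 2 + e * (1 / 6 - (i : ℝ))) ^ 2 * sq3

theorem wd_BC {m : ℕ} {e : ℝ} {j l : ℕ} (hj : j ≤ m) :
    wd m e (m + 1 + j) (2 * m + 2 + l) = 1 + e * (2 * (l : ℝ) - 2 * j + 1) +
      e * (e * ((2 * (j : ℝ) + l + 1) ^ 2 + 3 * ((l : ℝ) + 2 / 3) ^ 2)) := by
  rw [wd, wx_B hj, wx_C, wy_B hj, wy_C]
  linear_combination (1 / 2 + e * ((l : ℝ) + 2 / 3)) ^ 2 * sq3

theorem wd_AC {m : ℕ} {e : ℝ} {i l : ℕ} (hi : i ≤ m) :
    wd m e i (2 * m + 2 + l) = 1 - e * (2 * (l : ℝ) - 2 * i + 1) +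
      e * (e * (((l : ℝ) + 1 / 2 - i) ^ 2 + 3 * ((l : ℝ) + 1 / 2 + i) ^ 2)) := by
  rw [wd, wx_A hi, wx_C, wy_A hi, wy_C]
  linear_combination (e * ((l : ℝ) + 1 / 2 + i)) ^ 2 * sq3

theorem small {m : ℕ} {e E : ℝ} (he : 0 < e) (he2 : e * ((m : ℝ) + 1) ^ 2 ≤ 1 / 100)
    (hE : E ≤ 50 * ((m : ℝ) + 1) ^ 2) : e * (e * E) < e := by
  have h1 : e * E ≤ e * (50 * ((m : ℝ) + 1) ^ 2) := mul_le_mul_of_nonneg_left hE he.le
  have h2 : e * E < 1 := by nlinarith
  nlinarith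

theorem close_same {m : ℕ} {e : ℝ} {i j : ℕ} (he : 0 < e)
    (he2 : e * ((m : ℝ) + 1) ^ 2 ≤ 1 / 100) (hi : i ≤ m) (hj : j ≤ m) :
    4 * (e * ((i : ℝ) - j)) ^ 2 ≤ 1 := by
  have h1 : (i : ℝ) ≤ m := by exact_mod_cast hi
  have h2 : (j : ℝ) ≤ m := by exact_mod_cast hj
  have h3 : (0 : ℝ) ≤ i := Nat.cast_nonneg i
  have h4 : (0 : ℝ) ≤ j := Nat.cast_nonneg j
  have h5 : (0 : ℝ) ≤ m := Nat.cast_nonneg m
  have hm : e * ((m : ℝ) + 1) ≤ 1 / 100 := by nlinarith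
  have h6 : |e * ((i : ℝ) - j)| ≤ 1 / 100 := by
    rw [abs_mul, abs_of_pos he]
    have h7 : |(i : ℝ) - j| ≤ (m : ℝ) + 1 := by
      rw [abs_le]; constructor <;> linarith
    calc e * |(i : ℝ) - j| ≤ e * ((m : ℝ) + 1) := mul_le_mul_of_nonneg_left h7 he.le
      _ ≤ 1 / 100 := hm
  have h8 : (e * ((i : ℝ) - j)) ^ 2 ≤ (1 / 100) ^ 2 := by
    rw [← sq_abs]
    exact pow_le_pow_left₀ (abs_nonneg _) h6 2
  nlinarith

/-- the adjacency of the drawing -/
theorem wd_le_one_iff {m : ℕ} {e : ℝ} (he : 0 < e) (he2 : e * ((m : ℝ) + 1) ^ 2 ≤ 1 / 100)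
    {u v : ℕ} (huv : u < v) (hv : v < 3 * m + 2) :
    wd m e u v ≤ 1 ↔ (v - u ≤ m ∨ 2 * m + 2 ≤ v - u) := by
  have h5 : (0 : ℝ) ≤ m := Nat.cast_nonneg m
  rcases cluster m u (huv.trans hv) with hu | ⟨i, hi, rfl⟩ | ⟨i, hi, rfl⟩
  · rcases cluster m v hv with hv' | ⟨j, hj, rfl⟩ | ⟨l, hl, rfl⟩
    · rw [wd_AA hu hv']
      exact ⟨fun _ => Or.inl (by omega), fun _ => close_same he he2 hu hv'⟩
    · rw [wd_AB hu hj]
      have h1 : (u : ℝ) ≤ m := by exact_mod_cast hu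
      have h2 : (j : ℝ) ≤ m := by exact_mod_cast hj
      have h3 : (0 : ℝ) ≤ u := Nat.cast_nonneg u
      have h4 : (0 : ℝ) ≤ j := Nat.cast_nonneg j
      constructor
      · intro h
        left
        by_contra hc
        have h6 : u ≤ j := by omega
        have h7 : (u : ℝ) ≤ j := by exact_mod_cast h6
        have h8 : 0 ≤ e * (e * ((2 * (j : ℝ) + 1 / 2 + u) ^ 2 + 3 * (1 / 6 - (u : ℝ)) ^ 2)) := by
          positivity
        have h9 : e * 1 ≤ e * (2 * (j : ℝ) - 2 * u + 1) :=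
          mul_le_mul_of_nonneg_left (by linarith) he.le
        linarith
      · intro h
        have h6 : j + 1 ≤ u := by omega
        have h7 : (j : ℝ) + 1 ≤ u := by exact_mod_cast h6
        have h8 := small (E := (2 * (j : ℝ) + 1 / 2 + u) ^ 2 + 3 * (1 / 6 - (u : ℝ)) ^ 2) he he2
          (by nlinarith)
        have h9 : e * (2 * (j : ℝ) - 2 * u + 1) ≤ e * (-1) :=
          mul_le_mul_of_nonneg_left (by linarith) he.le
        linarith
    · rw [wd_AC hu]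
      have h1 : (u : ℝ) ≤ m := by exact_mod_cast hu
      have h2 : (l : ℝ) + 1 ≤ m := by exact_mod_cast hl
      have h3 : (0 : ℝ) ≤ u := Nat.cast_nonneg u
      have h4 : (0 : ℝ) ≤ l := Nat.cast_nonneg l
      constructor
      · intro h
        right
        by_contra hc
        have h6 : l + 1 ≤ u := by omega
        have h7 : (l : ℝ) + 1 ≤ u := by exact_mod_cast h6
        have h8 : 0 ≤ e * (e * (((l : ℝ) + 1 / 2 - u) ^ 2 + 3 * ((l : ℝ) + 1 / 2 + u) ^ 2)) := by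
          positivity
        have h9 : e * (2 * (l : ℝ) - 2 * u + 1) ≤ e * (-1) :=
          mul_le_mul_of_nonneg_left (by linarith) he.le
        linarith
      · intro h
        have h6 : u ≤ l := by omega
        have h7 : (u : ℝ) ≤ l := by exact_mod_cast h6
        have h8 := small (E := ((l : ℝ) + 1 / 2 - u) ^ 2 + 3 * ((l : ℝ) + 1 / 2 + u) ^ 2) he he2
          (by nlinarith)
        have h9 : e * 1 ≤ e * (2 * (l : ℝ) - 2 * u + 1) :=
          mul_le_mul_of_nonneg_left (by linarith) he.le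
        linarith
  · rcases cluster m v hv with hv' | ⟨j, hj, rfl⟩ | ⟨l, hl, rfl⟩
    · omega
    · rw [wd_BB hi hj]
      exact ⟨fun _ => Or.inl (by omega), fun _ => close_same he he2 hi hj⟩
    · rw [wd_BC hi]
      have h1 : (i : ℝ) ≤ m := by exact_mod_cast hi
      have h2 : (l : ℝ) + 1 ≤ m := by exact_mod_cast hl
      have h3 : (0 : ℝ) ≤ i := Nat.cast_nonneg i
      have h4 : (0 : ℝ) ≤ l := Nat.cast_nonneg l
      constructor
      · intro h
        left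
        by_contra hc
        have h6 : i ≤ l := by omega
        have h7 : (i : ℝ) ≤ l := by exact_mod_cast h6
        have h8 : 0 ≤ e * (e * ((2 * (i : ℝ) + l + 1) ^ 2 + 3 * ((l : ℝ) + 2 / 3) ^ 2)) := by
          positivity
        have h9 : e * 1 ≤ e * (2 * (l : ℝ) - 2 * i + 1) :=
          mul_le_mul_of_nonneg_left (by linarith) he.le
        linarith
      · intro h
        have h6 : l + 1 ≤ i := by omega
        have h7 : (l : ℝ) + 1 ≤ i := by exact_mod_cast h6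
        have h8 := small (E := (2 * (i : ℝ) + l + 1) ^ 2 + 3 * ((l : ℝ) + 2 / 3) ^ 2) he he2
          (by nlinarith)
        have h9 : e * (2 * (l : ℝ) - 2 * i + 1) ≤ e * (-1) :=
          mul_le_mul_of_nonneg_left (by linarith) he.le
        linarith
  · rcases cluster m v hv with hv' | ⟨j, hj, rfl⟩ | ⟨l, hl, rfl⟩
    · omega
    · omega
    · rw [wd_CC]
      exact ⟨fun _ => Or.inl (by omega), fun _ => close_same he he2 hi.le hl.le⟩

/-- the drawing lies in a thin strip -/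
theorem wy_bounds {m : ℕ} {e : ℝ} (he : 0 < e) {v : ℕ} (hv : v < 3 * m + 2)
    (he3 : e * ((m : ℝ) + 1) ≤ 1 / 100) :
    -(e * Real.sqrt 3 * ((m : ℝ) + 1)) ≤ wy m e v ∧
      wy m e v ≤ Real.sqrt 3 / 2 + e * Real.sqrt 3 / 6 := by
  have h5 : (0 : ℝ) ≤ m := Nat.cast_nonneg m
  have hs : 0 < Real.sqrt 3 := Real.sqrt_pos.2 (by norm_num)
  have hes : 0 < e * Real.sqrt 3 := mul_pos he hs
  have hesm : e * Real.sqrt 3 * ((m : ℝ) + 1) ≤ Real.sqrt 3 * (1 / 100) := by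
    calc e * Real.sqrt 3 * ((m : ℝ) + 1) = Real.sqrt 3 * (e * ((m : ℝ) + 1)) := by ring
      _ ≤ Real.sqrt 3 * (1 / 100) := mul_le_mul_of_nonneg_left he3 hs.le
  have h0 : 0 ≤ e * Real.sqrt 3 * ((m : ℝ) + 1) := by positivity
  rcases cluster m v hv with hv' | ⟨j, hj, rfl⟩ | ⟨l, hl, rfl⟩
  · rw [wy_A hv']
    have h1 : (v : ℝ) ≤ m := by exact_mod_cast hv'
    have h3 : (0 : ℝ) ≤ v := Nat.cast_nonneg v
    have h6 : e * Real.sqrt 3 * v ≤ e * Real.sqrt 3 * ((m : ℝ) + 1) :=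
      mul_le_mul_of_nonneg_left (by linarith) hes.le
    have h7 : 0 ≤ e * Real.sqrt 3 * v := by positivity
    constructor <;> linarith
  · rw [wy_B hj]
    constructor <;> linarith
  · rw [wy_C]
    have h2 : (l : ℝ) + 1 ≤ m := by exact_mod_cast hl
    have h4 : (0 : ℝ) ≤ l := Nat.cast_nonneg l
    have h6 : e * Real.sqrt 3 * ((l : ℝ) + 1 / 2) ≤ e * Real.sqrt 3 * ((m : ℝ) + 1) :=
      mul_le_mul_of_nonneg_left (by linarith) hes.le
    have h7 : 0 ≤ e * Real.sqrt 3 * ((l : ℝ) + 1 / 2) := by positivity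
    constructor <;> linarith

theorem exists_web (w c : ℝ) (hw : Real.sqrt 3 / 2 < w) (hc : c < 3 / 2) :
    ∃ (n : ℕ) (X Y : Fin n → ℝ) (k : ℕ), (∀ u v, |Y u - Y v| ≤ w) ∧
      (∀ s : Finset (Fin n), (∀ a ∈ s, ∀ b ∈ s, dd X Y a b ≤ 1) → s.card ≤ k) ∧
      (∀ s : Finset (Fin n), (∀ a ∈ s, ∀ b ∈ s, a ≠ b → 1 < dd X Y a b) → s.card ≤ 2) ∧
      2 * c * k < n := by
  obtain ⟨m, hm⟩ := exists_nat_gt ((2 * c - 2) / (3 - 2 * c))
  have hm' : 2 * c - 2 < m * (3 - 2 * c) := by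
    rwa [div_lt_iff₀ (by linarith)] at hm
  have hm0 : (0 : ℝ) ≤ m := Nat.cast_nonneg m
  have hM : (1 : ℝ) ≤ (m : ℝ) + 1 := by linarith
  have hs : 0 < Real.sqrt 3 := Real.sqrt_pos.2 (by norm_num)
  have hs2 : Real.sqrt 3 < 2 := by
    rw [Real.sqrt_lt' (by norm_num)]; norm_num
  -- the scale
  obtain ⟨e, he, he2, he3⟩ : ∃ e : ℝ, 0 < e ∧ e * ((m : ℝ) + 1) ^ 2 ≤ 1 / 100 ∧
      e * ((m : ℝ) + 1) * 4 ≤ w - Real.sqrt 3 / 2 := by
    refine ⟨min (1 / (100 * ((m : ℝ) + 1) ^ 2)) ((w - Real.sqrt 3 / 2) / (4 * ((m : ℝ) + 1))),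
      lt_min (by positivity) (div_pos (by linarith) (by positivity)), ?_, ?_⟩
    · have h1 : min (1 / (100 * ((m : ℝ) + 1) ^ 2)) ((w - Real.sqrt 3 / 2) / (4 * ((m : ℝ) + 1))) ≤
        1 / (100 * ((m : ℝ) + 1) ^ 2) := min_le_left _ _
      calc _ ≤ 1 / (100 * ((m : ℝ) + 1) ^ 2) * ((m : ℝ) + 1) ^ 2 :=
            mul_le_mul_of_nonneg_right h1 (by positivity)
        _ = 1 / 100 := by field_simp
    · have h1 : min (1 / (100 * ((m : ℝ) + 1) ^ 2)) ((w - Real.sqrt 3 / 2) / (4 * ((m : ℝ) + 1))) ≤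
        (w - Real.sqrt 3 / 2) / (4 * ((m : ℝ) + 1)) := min_le_right _ _
      rw [mul_assoc]
      calc _ ≤ (w - Real.sqrt 3 / 2) / (4 * ((m : ℝ) + 1)) * (((m : ℝ) + 1) * 4) :=
            mul_le_mul_of_nonneg_right h1 (by positivity)
        _ = w - Real.sqrt 3 / 2 := by field_simp
  have he4 : e * ((m : ℝ) + 1) ≤ 1 / 100 := by nlinarith
  refine ⟨3 * m + 2, fun v => wx m e v, fun v => wy m e v, m + 1, ?_, ?_, ?_, ?_⟩
  · intro u v
    obtain ⟨h1, h2⟩ := wy_bounds he u.2 he4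
    obtain ⟨h3, h4⟩ := wy_bounds he v.2 he4
    have h5 : e * Real.sqrt 3 / 6 + e * Real.sqrt 3 * ((m : ℝ) + 1) ≤ w - Real.sqrt 3 / 2 := by
      have h6 : e * Real.sqrt 3 ≤ e * 2 := mul_le_mul_of_nonneg_left hs2.le he.le
      have h7 : e * Real.sqrt 3 * ((m : ℝ) + 1) ≤ e * 2 * ((m : ℝ) + 1) :=
        mul_le_mul_of_nonneg_right h6 (by linarith)
      have h8 : e * 1 ≤ e * ((m : ℝ) + 1) := mul_le_mul_of_nonneg_left hM he.le
      linarith
    simp only
    rw [abs_le]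
    constructor <;> linarith
  · intro s hs'
    have h1 : (s.map Fin.valEmbedding).card ≤ m + 1 := by
      apply web_clique m
      · intro a ha
        obtain ⟨a', -, rfl⟩ := Finset.mem_map.1 ha
        exact a'.2
      · intro a ha b hb hab
        obtain ⟨a', ha', rfl⟩ := Finset.mem_map.1 ha
        obtain ⟨b', hb', rfl⟩ := Finset.mem_map.1 hb
        exact (wd_le_one_iff he he2 hab b'.2).1 (hs' a' ha' b' hb')
    rwa [Finset.card_map] at h1
  · intro s hs'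
    have h1 : (s.map Fin.valEmbedding).card ≤ 2 := by
      apply web_stable m
      intro a ha b hb hab
      obtain ⟨a', ha', rfl⟩ := Finset.mem_map.1 ha
      obtain ⟨b', hb', rfl⟩ := Finset.mem_map.1 hb
      have hne : a' ≠ b' := by
        rintro rfl
        exact absurd hab (lt_irrefl _)
      have h2 : 1 < wd m e a' b' := hs' a' ha' b' hb' hne
      have h3 := mt (wd_le_one_iff he he2 hab b'.2).2 (not_le.2 h2)
      rw [not_or, not_le, not_le] at h3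
      exact h3
    rwa [Finset.card_map] at h1
  · push_cast
    nlinarith

end Pool.Agent.NS45
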