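import Pool.Agent.NS45.Web

/-!
The webs on `3 m + 2` vertices, drawn in two thin strips at distance slightly less than `√3 / 2`.
-/

set_option autoImplicit false

namespace Pool.Agent.NS45

open Pool.Agent.UDR57

/-- the drawing lies in two thin strips -/
theorem wy_bounds2 {m : ℕ} {e δ : ℝ} (he : 0 < e) {v : ℕ} (hv : v < 3 * m + 2)
    (hδ : e * (2 * ((m : ℝ) + 1)) ≤ δ) :
    (-δ ≤ wy m e v ∧ wy m e v ≤ δ) ∨
      (Real.sqrt 3 / 2 - δ ≤ wy m e v ∧ wy m e v ≤ Real.sqrt 3 / 2 + δ) := by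
  have h5 : (0 : ℝ) ≤ m := Nat.cast_nonneg m
  have hs : 0 < Real.sqrt 3 := Real.sqrt_pos.2 (by norm_num)
  have hs2 : Real.sqrt 3 < 2 := by
    rw [Real.sqrt_lt' (by norm_num)]; norm_num
  have hes : 0 < e * Real.sqrt 3 := mul_pos he hs
  have hes2 : e * Real.sqrt 3 ≤ e * 2 := mul_le_mul_of_nonneg_left hs2.le he.le
  have hM : 0 ≤ (m : ℝ) + 1 := by linarith
  have hmain : e * Real.sqrt 3 * ((m : ℝ) + 1) ≤ δ := by
    have h1 : e * Real.sqrt 3 * ((m : ℝ) + 1) ≤ e * 2 * ((m : ℝ) + 1) :=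
      mul_le_mul_of_nonneg_right hes2 hM
    linarith
  rcases cluster m v hv with hv' | ⟨j, hj, rfl⟩ | ⟨l, hl, rfl⟩
  · left
    rw [wy_A hv']
    have h1 : (v : ℝ) ≤ m := by exact_mod_cast hv'
    have h3 : (0 : ℝ) ≤ v := Nat.cast_nonneg v
    have h6 : e * Real.sqrt 3 * v ≤ e * Real.sqrt 3 * ((m : ℝ) + 1) :=
      mul_le_mul_of_nonneg_left (by linarith) hes.le
    have h7 : 0 ≤ e * Real.sqrt 3 * v := by positivity
    constructor <;> linarith
  · right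
    rw [wy_B hj]
    have h6 : e * Real.sqrt 3 * 1 ≤ e * Real.sqrt 3 * ((m : ℝ) + 1) :=
      mul_le_mul_of_nonneg_left (by linarith) hes.le
    constructor <;> linarith
  · left
    rw [wy_C]
    have h2 : (l : ℝ) + 1 ≤ m := by exact_mod_cast hl
    have h4 : (0 : ℝ) ≤ l := Nat.cast_nonneg l
    have h6 : e * Real.sqrt 3 * ((l : ℝ) + 1 / 2) ≤ e * Real.sqrt 3 * ((m : ℝ) + 1) :=
      mul_le_mul_of_nonneg_left (by linarith) hes.le
    have h7 : 0 ≤ e * Real.sqrt 3 * ((l : ℝ) + 1 / 2) := by positivity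
    constructor <;> linarith

theorem exists_web3 (δ c : ℝ) (hδ : 0 < δ) (hc : c < 3 / 2) :
    ∃ (n : ℕ) (X Y : Fin n → ℝ) (k : ℕ),
      (∀ u, (-δ ≤ Y u ∧ Y u ≤ δ) ∨ (Real.sqrt 3 / 2 - δ ≤ Y u ∧ Y u ≤ Real.sqrt 3 / 2 + δ)) ∧
      (∀ s : Finset (Fin n), (∀ a ∈ s, ∀ b ∈ s, dd X Y a b ≤ 1) → s.card ≤ k) ∧
      (∀ s : Finset (Fin n), (∀ a ∈ s, ∀ b ∈ s, a ≠ b → 1 < dd X Y a b) → s.card ≤ 2) ∧
      2 * c * k < n := by
  obtain ⟨m, hm⟩ := exists_nat_gt ((2 * c - 2) / (3 - 2 * c))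
  have hm' : 2 * c - 2 < m * (3 - 2 * c) := by
    rwa [div_lt_iff₀ (by linarith)] at hm
  have hm0 : (0 : ℝ) ≤ m := Nat.cast_nonneg m
  -- the scale
  obtain ⟨e, he, he2, he3⟩ : ∃ e : ℝ, 0 < e ∧ e * ((m : ℝ) + 1) ^ 2 ≤ 1 / 100 ∧
      e * (2 * ((m : ℝ) + 1)) ≤ δ := by
    refine ⟨min (1 / (100 * ((m : ℝ) + 1) ^ 2)) (δ / (2 * ((m : ℝ) + 1))),
      lt_min (by positivity) (div_pos hδ (by positivity)), ?_, ?_⟩
    · have h1 : min (1 / (100 * ((m : ℝ) + 1) ^ 2)) (δ / (2 * ((m : ℝ) + 1))) ≤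
        1 / (100 * ((m : ℝ) + 1) ^ 2) := min_le_left _ _
      calc _ ≤ 1 / (100 * ((m : ℝ) + 1) ^ 2) * ((m : ℝ) + 1) ^ 2 :=
            mul_le_mul_of_nonneg_right h1 (by positivity)
        _ = 1 / 100 := by field_simp
    · have h1 : min (1 / (100 * ((m : ℝ) + 1) ^ 2)) (δ / (2 * ((m : ℝ) + 1))) ≤
        δ / (2 * ((m : ℝ) + 1)) := min_le_right _ _
      calc _ ≤ δ / (2 * ((m : ℝ) + 1)) * (2 * ((m : ℝ) + 1)) :=
            mul_le_mul_of_nonneg_right h1 (by positivity)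
        _ = δ := by field_simp
  refine ⟨3 * m + 2, fun v => wx m e v, fun v => wy m e v, m + 1, ?_, ?_, ?_, ?_⟩
  · intro u
    exact wy_bounds2 he u.2 he3
  · intro s hs'
    have h1 : (s.map Fin.valEmbedding).card ≤ m + 1 := by
      apply web_clique m
      · intro a ha
        obtain ⟨a', -, rfl⟩ := Finset.mem_map.1 ha
        exact a'.2
      · intro a ha b hb hab
        obtain ⟨a', ha', rfl⟩ := Finset.mem_map.1 ha
        obtain ⟨b', hb', rfl⟩ := Finset.mem_map.1 hb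
        exact (wd_le_one_iff he he2 hab b'.2).1 (hs' a' ha' b' hb')
    rwa [Finset.card_map] at h1
  · intro s hs'
    have h1 : (s.map Fin.valEmbedding).card ≤ 2 := by
      apply web_stable m
      intro a ha b hb hab
      obtain ⟨a', ha', rfl⟩ := Finset.mem_map.1 ha
      obtain ⟨b', hb', rfl⟩ := Finset.mem_map.1 hb
      have hne : a' ≠ b' := by
        rintro rfl
        exact absurd hab (lt_irrefl _)
      have h2 : 1 < wd m e a' b' := hs' a' ha' b' hb' hne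
      have h3 := mt (wd_le_one_iff he he2 hab b'.2).2 (not_le.2 h2)
      rw [not_or, not_le, not_le] at h3
      exact h3
    rwa [Finset.card_map] at h1
  · push_cast
    nlinarith

end Pool.Agent.NS45
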