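import Pool.Agent.UDR57.Fam

/-!
Unit disk graphs in two thin strips at distance slightly less than `1`: the webs on `4 m + 3`
vertices, drawn in four tiny clusters at the corners of a unit square. Two vertices
`u < v < 4 m + 3` are at distance at most one if and only if `v - u ≤ m` or `3 m + 3 ≤ v - u`; a set
of pairwise close vertices has at most `m + 1` elements, and a set of pairwise far vertices at most
three.
-/

set_option autoImplicit false

namespace Pool.Agent.NS45.W4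

open Pool.Agent.UDR57

/-! ### The combinatorial part -/

theorem web_clique (m : ℕ) (t : Finset ℕ) (h1 : ∀ a ∈ t, a < 4 * m + 3)
    (h2 : ∀ a ∈ t, ∀ b ∈ t, a < b → b - a ≤ m ∨ 3 * m + 3 ≤ b - a) : t.card ≤ m + 1 := by
  classical
  rcases t.eq_empty_or_nonempty with h0 | h0
  · rw [h0, Finset.card_empty]; exact Nat.zero_le _
  set a := t.min' h0 with ha
  have hat : a ∈ t := t.min'_mem h0
  have hmin : ∀ x ∈ t, a ≤ x := fun x hx => t.min'_le x hx
  rcases (t.filter fun x => 3 * m + 3 ≤ x - a).eq_empty_or_nonempty with hQ | hQ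
  · have hsub : t ⊆ Finset.Icc a (a + m) := by
      intro x hx
      have hx1 := hmin x hx
      rw [Finset.mem_Icc]
      refine ⟨hx1, ?_⟩
      by_contra hc
      have hlt : a < x := by omega
      rcases h2 a hat x hx hlt with h3 | h3
      · omega
      · have : x ∈ t.filter fun x => 3 * m + 3 ≤ x - a := Finset.mem_filter.2 ⟨hx, h3⟩
        rw [hQ] at this
        exact absurd this (Finset.notMem_empty x)
    have := Finset.card_le_card hsub
    rw [Nat.card_Icc] at this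
    omega
  · set b := (t.filter fun x => 3 * m + 3 ≤ x - a).min' hQ with hb
    have hbt : b ∈ t.filter fun x => 3 * m + 3 ≤ x - a := Finset.min'_mem _ hQ
    have hbmin : ∀ x ∈ t, 3 * m + 3 ≤ x - a → b ≤ x := fun x hx hx2 =>
      Finset.min'_le _ x (Finset.mem_filter.2 ⟨hx, hx2⟩)
    obtain ⟨hbt1, hbt2⟩ := Finset.mem_filter.1 hbt
    have hb3 := h1 b hbt1
    have hsub : t ⊆ Finset.Icc a (b - (3 * m + 3)) ∪ Finset.Ico b (4 * m + 3) := by
      intro x hx
      have hx1 := hmin x hx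
      have hx2 := h1 x hx
      rw [Finset.mem_union, Finset.mem_Icc, Finset.mem_Ico]
      by_cases hxa : 3 * m + 3 ≤ x - a
      · exact Or.inr ⟨hbmin x hx hxa, hx2⟩
      · left
        have hxm : x - a ≤ m := by
          rcases Nat.eq_or_lt_of_le hx1 with h3 | h3
          · omega
          · rcases h2 a hat x hx h3 with h4 | h4
            · exact h4
            · exact absurd h4 hxa
        have hxb : x < b := by omega
        rcases h2 x hx b hbt1 hxb with h3 | h3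
        · omega
        · omega
    have h3 := Finset.card_le_card hsub
    have h4 := Finset.card_union_le (Finset.Icc a (b - (3 * m + 3))) (Finset.Ico b (4 * m + 3))
    rw [Nat.card_Icc, Nat.card_Ico] at h4
    omega

theorem web_stable (m : ℕ) (t : Finset ℕ)
    (h2 : ∀ a ∈ t, ∀ b ∈ t, a < b → m < b - a ∧ b - a < 3 * m + 3) : t.card ≤ 3 := by
  by_contra hc
  obtain ⟨s, hs, hsc⟩ := Finset.exists_subset_card_eq (show 4 ≤ t.card by omega)
  have hmem : ∀ i : Fin 4, s.orderEmbOfFin hsc i ∈ t := fun i =>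
    hs (Finset.orderEmbOfFin_mem s hsc i)
  have hlt : ∀ i j : Fin 4, i < j → s.orderEmbOfFin hsc i < s.orderEmbOfFin hsc j := fun i j h =>
    (s.orderEmbOfFin hsc).lt_iff_lt.2 h
  have e1 := h2 _ (hmem 0) _ (hmem 1) (hlt 0 1 (by decide))
  have e2 := h2 _ (hmem 1) _ (hmem 2) (hlt 1 2 (by decide))
  have e3 := h2 _ (hmem 2) _ (hmem 3) (hlt 2 3 (by decide))
  have e4 := h2 _ (hmem 0) _ (hmem 3) (hlt 0 3 (by decide))
  omega

/-! ### The drawing -/

/-- the parameter of the vertex `v` inside its cluster -/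
def tt (m v : ℕ) : ℕ :=
  if v ≤ m then 2 * v + 1
  else if v ≤ 2 * m + 1 then 2 * (v - (m + 1)) + 1
  else if v ≤ 3 * m + 2 then 2 * (v - (2 * m + 2)) + 1
  else 2 * (v - (3 * m + 3)) + 2

/-- the first coordinate of the vertex `v` -/
noncomputable def wx (m : ℕ) (e : ℝ) (v : ℕ) : ℝ :=
  if v ≤ m then e * (tt m v)
  else if v ≤ 2 * m + 1 then 1 + e * (tt m v)
  else if v ≤ 3 * m + 2 then 1 - e * (tt m v)
  else -(e * (tt m v))

/-- the second coordinate of the vertex `v` -/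
noncomputable def wy (m : ℕ) (e : ℝ) (v : ℕ) : ℝ :=
  if v ≤ m then -(e * (tt m v))
  else if v ≤ 2 * m + 1 then e * (tt m v)
  else if v ≤ 3 * m + 2 then 1 + e * (tt m v)
  else 1 - e * (tt m v)

/-- the squared distance of two vertices -/
noncomputable def wd (m : ℕ) (e : ℝ) (u v : ℕ) : ℝ :=
  (wx m e u - wx m e v) ^ 2 + (wy m e u - wy m e v) ^ 2

theorem tt_A {m i : ℕ} (h : i ≤ m) : tt m i = 2 * i + 1 := by
  rw [tt, if_pos h]

theorem tt_B {m i : ℕ} (h : i ≤ m) : tt m (m + 1 + i) = 2 * i + 1 := by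
  rw [tt, if_neg (by omega), if_pos (by omega)]
  omega

theorem tt_C {m i : ℕ} (h : i ≤ m) : tt m (2 * m + 2 + i) = 2 * i + 1 := by
  rw [tt, if_neg (by omega), if_neg (by omega), if_pos (by omega)]
  omega

theorem tt_D {m i : ℕ} : tt m (3 * m + 3 + i) = 2 * i + 2 := by
  rw [tt, if_neg (by omega), if_neg (by omega), if_neg (by omega)]
  omega

theorem tt_pos (m v : ℕ) : 1 ≤ tt m v := by
  unfold tt
  split_ifs <;> omega

theorem tt_le {m v : ℕ} (hv : v < 4 * m + 3) : tt m v ≤ 2 * m + 2 := by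
  unfold tt
  split_ifs <;> omega

/-- a vertex lies in one of the four clusters -/
theorem cluster (m v : ℕ) (hv : v < 4 * m + 3) :
    v ≤ m ∨ (∃ j, j ≤ m ∧ v = m + 1 + j) ∨ (∃ j, j ≤ m ∧ v = 2 * m + 2 + j) ∨
      ∃ l, l < m ∧ v = 3 * m + 3 + l := by
  by_cases h1 : v ≤ m
  · exact Or.inl h1
  by_cases h2 : v ≤ 2 * m + 1
  · exact Or.inr (Or.inl ⟨v - (m + 1), by omega, by omega⟩)
  by_cases h3 : v ≤ 3 * m + 2
  · exact Or.inr (Or.inr (Or.inl ⟨v - (2 * m + 2), by omega, by omega⟩))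
  · exact Or.inr (Or.inr (Or.inr ⟨v - (3 * m + 3), by omega, by omega⟩))

/-- the coordinates in the four clusters -/
theorem pos_A {m : ℕ} {e : ℝ} {v : ℕ} (h : v ≤ m) :
    wx m e v = e * (tt m v) ∧ wy m e v = -(e * (tt m v)) := by
  rw [wx, wy, if_pos h, if_pos h]
  exact ⟨rfl, rfl⟩

theorem pos_B {m : ℕ} {e : ℝ} {v : ℕ} (h : m < v) (h' : v ≤ 2 * m + 1) :
    wx m e v = 1 + e * (tt m v) ∧ wy m e v = e * (tt m v) := by
  rw [wx, wy, if_neg (by omega), if_pos h', if_neg (by omega), if_pos h']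
  exact ⟨rfl, rfl⟩

theorem pos_C {m : ℕ} {e : ℝ} {v : ℕ} (h : 2 * m + 1 < v) (h' : v ≤ 3 * m + 2) :
    wx m e v = 1 - e * (tt m v) ∧ wy m e v = 1 + e * (tt m v) := by
  rw [wx, wy, if_neg (by omega), if_neg (by omega), if_pos h', if_neg (by omega),
    if_neg (by omega), if_pos h']
  exact ⟨rfl, rfl⟩

theorem pos_D {m : ℕ} {e : ℝ} {v : ℕ} (h : 3 * m + 2 < v) :
    wx m e v = -(e * (tt m v)) ∧ wy m e v = 1 - e * (tt m v) := by
  rw [wx, wy, if_neg (by omega), if_neg (by omega), if_neg (by omega), if_neg (by omega),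
    if_neg (by omega), if_neg (by omega)]
  exact ⟨rfl, rfl⟩

/-- consecutive clusters: the second one ahead of the first one -/
theorem step_iff {m T T' : ℕ} {e d : ℝ} (he : 0 < e) (he2 : e * ((m : ℝ) + 1) ^ 2 ≤ 1 / 100)
    (hT : 1 ≤ T) (hTm : T ≤ 2 * m + 2) (hTm' : T' ≤ 2 * m + 2)
    (hd : d = 1 + 2 * (e * T' - e * T) + 2 * (e * T) ^ 2 + 2 * (e * T') ^ 2) :
    d ≤ 1 ↔ T' < T := by
  have h1 : (T : ℝ) ≤ 2 * m + 2 := by exact_mod_cast hTm
  have h2 : (T' : ℝ) ≤ 2 * m + 2 := by exact_mod_cast hTm'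
  have h3 : (1 : ℝ) ≤ T := by exact_mod_cast hT
  have h4 : (0 : ℝ) ≤ T' := Nat.cast_nonneg T'
  have h5 : (0 : ℝ) ≤ m := Nat.cast_nonneg m
  constructor
  · intro h
    by_contra hc
    have h6 : (T : ℝ) ≤ T' := by exact_mod_cast not_lt.1 hc
    have h7 : e * T ≤ e * T' := mul_le_mul_of_nonneg_left h6 he.le
    have h8 : 0 < e * T := mul_pos he (by linarith)
    have h9 : 0 < (e * T) ^ 2 := pow_pos h8 2
    have h10 : 0 ≤ (e * T') ^ 2 := sq_nonneg _
    linarith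
  · intro h
    have h6 : (T' : ℝ) + 1 ≤ T := by exact_mod_cast h
    have h7 : e * (T' + 1) ≤ e * T := mul_le_mul_of_nonneg_left h6 he.le
    have h8 : (T : ℝ) ^ 2 ≤ 4 * ((m : ℝ) + 1) ^ 2 := by nlinarith
    have h9 : (T' : ℝ) ^ 2 ≤ 4 * ((m : ℝ) + 1) ^ 2 := by nlinarith
    have h10 : e * ((T : ℝ) ^ 2 + (T' : ℝ) ^ 2) ≤ 1 := by
      calc e * ((T : ℝ) ^ 2 + (T' : ℝ) ^ 2) ≤ e * (8 * ((m : ℝ) + 1) ^ 2) :=
            mul_le_mul_of_nonneg_left (by linarith) he.le
        _ = 8 * (e * ((m : ℝ) + 1) ^ 2) := by ring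
        _ ≤ 1 := by linarith
    have h11 : e * (e * ((T : ℝ) ^ 2 + (T' : ℝ) ^ 2)) ≤ e * 1 :=
      mul_le_mul_of_nonneg_left h10 he.le
    have h12 : (e * T) ^ 2 + (e * T') ^ 2 = e * (e * ((T : ℝ) ^ 2 + (T' : ℝ) ^ 2)) := by ring
    linarith

theorem close_same {m T T' : ℕ} {e : ℝ} (he : 0 < e) (he2 : e * ((m : ℝ) + 1) ^ 2 ≤ 1 / 100)
    (hTm : T ≤ 2 * m + 2) (hTm' : T' ≤ 2 * m + 2) : 2 * (e * T - e * T') ^ 2 ≤ 1 := by
  have h1 : (T : ℝ) ≤ 2 * m + 2 := by exact_mod_cast hTm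
  have h2 : (T' : ℝ) ≤ 2 * m + 2 := by exact_mod_cast hTm'
  have h3 : (0 : ℝ) ≤ T := Nat.cast_nonneg T
  have h4 : (0 : ℝ) ≤ T' := Nat.cast_nonneg T'
  have h5 : (0 : ℝ) ≤ m := Nat.cast_nonneg m
  have hm : e * ((m : ℝ) + 1) ≤ 1 / 100 := by nlinarith
  have h6 : |e * T - e * T'| ≤ 2 / 100 := by
    rw [← mul_sub, abs_mul, abs_of_pos he]
    have h7 : |(T : ℝ) - T'| ≤ 2 * ((m : ℝ) + 1) := by
      rw [abs_le]; constructor <;> linarith
    calc e * |(T : ℝ) - T'| ≤ e * (2 * ((m : ℝ) + 1)) := mul_le_mul_of_nonneg_left h7 he.le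
      _ = 2 * (e * ((m : ℝ) + 1)) := by ring
      _ ≤ 2 / 100 := by linarith
  have h8 : (e * T - e * T') ^ 2 ≤ (2 / 100) ^ 2 := by
    rw [← sq_abs]
    exact pow_le_pow_left₀ (abs_nonneg _) h6 2
  linarith

/-- the adjacency of the drawing -/
theorem wd_le_one_iff {m : ℕ} {e : ℝ} (he : 0 < e) (he2 : e * ((m : ℝ) + 1) ^ 2 ≤ 1 / 100)
    {u v : ℕ} (huv : u < v) (hv : v < 4 * m + 3) :
    wd m e u v ≤ 1 ↔ (v - u ≤ m ∨ 3 * m + 3 ≤ v - u) := by
  have hu' : u < 4 * m + 3 := huv.trans hv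
  have hTu := tt_le hu'
  have hTv := tt_le hv
  have hPu := tt_pos m u
  have hPv := tt_pos m v
  rcases cluster m u hu' with hu | ⟨i, hi, hui⟩ | ⟨i, hi, hui⟩ | ⟨i, hi, hui⟩
  · obtain ⟨x1, y1⟩ := pos_A (e := e) hu
    rcases cluster m v hv with hw | ⟨j, hj, hvj⟩ | ⟨j, hj, hvj⟩ | ⟨j, hj, hvj⟩
    · obtain ⟨x2, y2⟩ := pos_A (e := e) hw
      have h1 : wd m e u v = 2 * (e * (tt m u) - e * (tt m v)) ^ 2 := by
        rw [wd, x1, x2, y1, y2]; ring
      rw [h1]
      exact ⟨fun _ => Or.inl (by omega), fun _ => close_same he he2 hTu hTv⟩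
    · obtain ⟨x2, y2⟩ := pos_B (m := m) (e := e) (v := v) (by omega) (by omega)
      rw [step_iff he he2 hPu hTu hTv (d := wd m e u v) (by rw [wd, x1, x2, y1, y2]; ring)]
      rw [tt_A hu, hvj, tt_B hj]
      omega
    · obtain ⟨x2, y2⟩ := pos_C (m := m) (e := e) (v := v) (by omega) (by omega)
      have h1 : wd m e u v = 2 + 2 * (e * (tt m u) + e * (tt m v)) ^ 2 := by
        rw [wd, x1, x2, y1, y2]; ring
      rw [h1]
      constructor
      · intro h
        have := sq_nonneg (e * (tt m u) + e * (tt m v))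
        linarith
      · intro h
        omega
    · obtain ⟨x2, y2⟩ := pos_D (m := m) (e := e) (v := v) (by omega)
      rw [step_iff he he2 hPv hTv hTu (d := wd m e u v) (by rw [wd, x1, x2, y1, y2]; ring)]
      rw [tt_A hu, hvj, tt_D]
      omega
  · obtain ⟨x1, y1⟩ := pos_B (m := m) (e := e) (v := u) (by omega) (by omega)
    rcases cluster m v hv with hw | ⟨j, hj, hvj⟩ | ⟨j, hj, hvj⟩ | ⟨j, hj, hvj⟩
    · omega
    · obtain ⟨x2, y2⟩ := pos_B (m := m) (e := e) (v := v) (by omega) (by omega)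
      have h1 : wd m e u v = 2 * (e * (tt m u) - e * (tt m v)) ^ 2 := by
        rw [wd, x1, x2, y1, y2]; ring
      rw [h1]
      exact ⟨fun _ => Or.inl (by omega), fun _ => close_same he he2 hTu hTv⟩
    · obtain ⟨x2, y2⟩ := pos_C (m := m) (e := e) (v := v) (by omega) (by omega)
      rw [step_iff he he2 hPu hTu hTv (d := wd m e u v) (by rw [wd, x1, x2, y1, y2]; ring)]
      rw [hui, tt_B hi, hvj, tt_C hj]
      omega
    · obtain ⟨x2, y2⟩ := pos_D (m := m) (e := e) (v := v) (by omega)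
      have h1 : wd m e u v = 2 + 2 * (e * (tt m u) + e * (tt m v)) ^ 2 := by
        rw [wd, x1, x2, y1, y2]; ring
      rw [h1]
      constructor
      · intro h
        have := sq_nonneg (e * (tt m u) + e * (tt m v))
        linarith
      · intro h
        omega
  · obtain ⟨x1, y1⟩ := pos_C (m := m) (e := e) (v := u) (by omega) (by omega)
    rcases cluster m v hv with hw | ⟨j, hj, hvj⟩ | ⟨j, hj, hvj⟩ | ⟨j, hj, hvj⟩
    · omega
    · omega
    · obtain ⟨x2, y2⟩ := pos_C (m := m) (e := e) (v := v) (by omega) (by omega)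
      have h1 : wd m e u v = 2 * (e * (tt m u) - e * (tt m v)) ^ 2 := by
        rw [wd, x1, x2, y1, y2]; ring
      rw [h1]
      exact ⟨fun _ => Or.inl (by omega), fun _ => close_same he he2 hTu hTv⟩
    · obtain ⟨x2, y2⟩ := pos_D (m := m) (e := e) (v := v) (by omega)
      rw [step_iff he he2 hPu hTu hTv (d := wd m e u v) (by rw [wd, x1, x2, y1, y2]; ring)]
      rw [hui, tt_C hi, hvj, tt_D]
      omega
  · obtain ⟨x1, y1⟩ := pos_D (m := m) (e := e) (v := u) (by omega)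
    obtain ⟨x2, y2⟩ := pos_D (m := m) (e := e) (v := v) (by omega)
    have h1 : wd m e u v = 2 * (e * (tt m u) - e * (tt m v)) ^ 2 := by
      rw [wd, x1, x2, y1, y2]; ring
    rw [h1]
    exact ⟨fun _ => Or.inl (by omega), fun _ => close_same he he2 hTu hTv⟩

/-- the drawing lies in two thin strips -/
theorem wy_bounds {m : ℕ} {e δ : ℝ} (he : 0 < e) (hδ : e * (2 * ((m : ℝ) + 1)) ≤ δ) {v : ℕ}
    (hv : v < 4 * m + 3) :
    (-δ ≤ wy m e v ∧ wy m e v ≤ δ) ∨ (1 - δ ≤ wy m e v ∧ wy m e v ≤ 1 + δ) := by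
  have h1 : (tt m v : ℝ) ≤ 2 * ((m : ℝ) + 1) := by
    have := tt_le hv
    have h2 : (tt m v : ℝ) ≤ 2 * (m : ℝ) + 2 := by exact_mod_cast this
    linarith
  have h2 : e * (tt m v) ≤ δ := (mul_le_mul_of_nonneg_left h1 he.le).trans hδ
  have h3 : 0 ≤ e * (tt m v) := mul_nonneg he.le (Nat.cast_nonneg _)
  unfold wy
  split_ifs
  · left; constructor <;> linarith
  · left; constructor <;> linarith
  · right; constructor <;> linarith
  · right; constructor <;> linarith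

theorem exists_web4 (δ c : ℝ) (hδ : 0 < δ) (hc : c < 4 / 3) :
    ∃ (n : ℕ) (X Y : Fin n → ℝ) (k : ℕ),
      (∀ u, (-δ ≤ Y u ∧ Y u ≤ δ) ∨ (1 - δ ≤ Y u ∧ Y u ≤ 1 + δ)) ∧
      (∀ s : Finset (Fin n), (∀ a ∈ s, ∀ b ∈ s, dd X Y a b ≤ 1) → s.card ≤ k) ∧
      (∀ s : Finset (Fin n), (∀ a ∈ s, ∀ b ∈ s, a ≠ b → 1 < dd X Y a b) → s.card ≤ 3) ∧
      3 * c * k < n := by
  obtain ⟨m, hm⟩ := exists_nat_gt ((3 * c - 3) / (4 - 3 * c))
  have hm' : 3 * c - 3 < m * (4 - 3 * c) := by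
    rwa [div_lt_iff₀ (by linarith)] at hm
  have hm0 : (0 : ℝ) ≤ m := Nat.cast_nonneg m
  -- the scale
  obtain ⟨e, he, he2, he3⟩ : ∃ e : ℝ, 0 < e ∧ e * ((m : ℝ) + 1) ^ 2 ≤ 1 / 100 ∧
      e * (2 * ((m : ℝ) + 1)) ≤ δ := by
    refine ⟨min (1 / (100 * ((m : ℝ) + 1) ^ 2)) (δ / (2 * ((m : ℝ) + 1))),
      lt_min (by positivity) (div_pos hδ (by positivity)), ?_, ?_⟩
    · have h1 : min (1 / (100 * ((m : ℝ) + 1) ^ 2)) (δ / (2 * ((m : ℝ) + 1))) ≤
        1 / (100 * ((m : ℝ) + 1) ^ 2) := min_le_left _ _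
      calc _ ≤ 1 / (100 * ((m : ℝ) + 1) ^ 2) * ((m : ℝ) + 1) ^ 2 :=
            mul_le_mul_of_nonneg_right h1 (by positivity)
        _ = 1 / 100 := by field_simp
    · have h1 : min (1 / (100 * ((m : ℝ) + 1) ^ 2)) (δ / (2 * ((m : ℝ) + 1))) ≤
        δ / (2 * ((m : ℝ) + 1)) := min_le_right _ _
      calc _ ≤ δ / (2 * ((m : ℝ) + 1)) * (2 * ((m : ℝ) + 1)) :=
            mul_le_mul_of_nonneg_right h1 (by positivity)
        _ = δ := by field_simp
  refine ⟨4 * m + 3, fun v => wx m e v, fun v => wy m e v, m + 1, ?_, ?_, ?_, ?_⟩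
  · intro u
    exact wy_bounds he he3 u.2
  · intro s hs'
    have h1 : (s.map Fin.valEmbedding).card ≤ m + 1 := by
      apply web_clique m
      · intro a ha
        obtain ⟨a', -, rfl⟩ := Finset.mem_map.1 ha
        exact a'.2
      · intro a ha b hb hab
        obtain ⟨a', ha', rfl⟩ := Finset.mem_map.1 ha
        obtain ⟨b', hb', rfl⟩ := Finset.mem_map.1 hb
        exact (wd_le_one_iff he he2 hab b'.2).1 (hs' a' ha' b' hb')
    rwa [Finset.card_map] at h1
  · intro s hs'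
    have h1 : (s.map Fin.valEmbedding).card ≤ 3 := by
      apply web_stable m
      intro a ha b hb hab
      obtain ⟨a', ha', rfl⟩ := Finset.mem_map.1 ha
      obtain ⟨b', hb', rfl⟩ := Finset.mem_map.1 hb
      have hne : a' ≠ b' := by
        rintro rfl
        exact absurd hab (lt_irrefl _)
      have h2 : 1 < wd m e a' b' := hs' a' ha' b' hb' hne
      have h3 := mt (wd_le_one_iff he he2 hab b'.2).2 (not_le.2 h2)
      rw [not_or, not_le, not_le] at h3
      exact h3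
    rwa [Finset.card_map] at h1
  · push_cast
    nlinarith

end Pool.Agent.NS45.W4
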